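import Pool.Agent.H82.SF.Fin
import Pool.Agent.H19.A2.Jr

/-!
# [H82 SF FF] theorem (F) in the form of AP2

`ff`: the relative functional satisfies `FF` (H19/A2/Ff.lean). Proof: `f2`. For `v ∈ S0` and `x, b` with `n - cu x b = - d l` on `dec v`, both `p`-th powers at `S0 - v`: `Ψ = tz (cu x b)`, `η v = tz l`,
`η v' = 0`: `I (0, θ n at v) = I (d Ψ, Ψ - d η) = TS1 Ψ = tz (tsx x b)`.
-/

set_option autoImplicit false
set_option linter.dupNamespace false

open scoped NumberField Pointwise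
open IsDedekindDomain
open scoped Classical

noncomputable section

namespace H82.SF

open H63.MA H38.BB H38.BG H57.PC H57.BRA H89.BRG H57.RQ H24.RK Pool.Agent.H19.NF
  Pool.Agent.H19.AB Pool.Agent.H19.A2 Pool.Agent.H19

variable {K : Type} [Field K] [NumberField K] {Ω : Type} [Field Ω] [Algebra K Ω]
  [IsAlgClosure K Ω] {p : ℕ} {ζ : K}

/-- the pair of Kummer characters -/
private theorem ff_ft (hp : p.Prime) (hζ : IsPrimitiveRoot ζ p) (x b : Kˣ) :
    H38.ML.FT ((kc p ζ Ω x).prod (kc p ζ Ω b)) := by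
  obtain ⟨E, hE, h1⟩ := kc_ft (Ω := Ω) hp hζ x
  obtain ⟨E', hE', h2⟩ := kc_ft (Ω := Ω) hp hζ b
  refine ⟨E ⊔ E', IntermediateField.finiteDimensional_sup _ _, fun u hu => ?_⟩
  have h3 := h1 (IntermediateField.fixingSubgroup_antitone le_sup_left hu)
  have h4 := h2 (IntermediateField.fixingSubgroup_antitone le_sup_right hu)
  rw [MonoidHom.mem_ker] at h3 h4 ⊢
  rw [MonoidHom.prod_apply, h3, h4]
  rfl

private theorem ff_lfk {k m : ℕ} (hk : 0 < k) (hp : p.Prime) (hζ : IsPrimitiveRoot ζ p)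
    {D : RD0 K p ζ} (L : LDs D Ω) (x b : Kˣ) :
    LfK k L (fun σ τ : Gal(Ω/K) => ST.tz p m (cu p ζ x b σ τ)) := by
  have : NeZero p := ⟨hp.ne_zero⟩
  refine ⟨Multiplicative (ZMod p) × Multiplicative (ZMod p), inferInstance, inferInstance,
    (kc p ζ Ω x).prod (kc p ζ Ω b),
    fun r r' => ST.tz p m (Multiplicative.toAdd r.1 * Multiplicative.toAdd r'.2),
    fun v _ τ _ => ?_, ff_ft hp hζ x b, fun r => ?_, fun r => ?_, fun σ τ => rfl⟩
  · have h1 : ∀ r : Multiplicative (ZMod p) × Multiplicative (ZMod p), r ^ p = 1 := by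
      intro r
      refine Prod.ext ?_ ?_
      · apply Multiplicative.toAdd.injective
        rw [Prod.pow_fst, toAdd_pow, nsmul_eq_mul, CharP.cast_eq_zero, zero_mul]
        rfl
      · apply Multiplicative.toAdd.injective
        rw [Prod.pow_snd, toAdd_pow, nsmul_eq_mul, CharP.cast_eq_zero, zero_mul]
        rfl
    obtain ⟨j, rfl⟩ : ∃ j, k = j + 1 := ⟨k - 1, by omega⟩
    rw [pow_succ', pow_mul, h1, one_pow]
  · show ST.tz p m (Multiplicative.toAdd (1 : Multiplicative (ZMod p)) * _) = 0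
    rw [toAdd_one, zero_mul, map_zero]
  · show ST.tz p m (_ * Multiplicative.toAdd (1 : Multiplicative (ZMod p))) = 0
    rw [toAdd_one, mul_zero, map_zero]

private theorem ff_ts {m : ℕ} (hp : p.Prime) (hm : 1 ≤ m) {D : RD0 K p ζ} {L : LDs D Ω}
    (Fr : FR L) (x b : Kˣ) :
    TS1 L Fr (fun σ τ : Gal(Ω/K) => ST.tz p m (cu p ζ x b σ τ)) = ST.tz p m (tsx Fr x b) := by
  unfold TS1 tsx
  rw [AddMonoidHom.map_finsum_of_injective _ (ST.tz_inj hp hm)]
  refine finsum_congr fun w => ?_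
  by_cases hw : w ∈ D.S0
  · rw [if_pos hw, map_zero, br, t_S0 L hw]
    simp only [cu]
    rw [kk_one, kk_one, zero_mul, mul_zero, sub_self]
  · rw [if_neg hw, map_sub, br]

/-- all primes `p` (`-1` is a `p`-th power in `K`) -/
theorem ffR {k m : ℕ} [NeZero (p ^ m)] (hk : 0 < k) (hm : 1 ≤ m) (hp : p.Prime) (hp2 : MOne p K)
    (hζ : IsPrimitiveRoot ζ p) (hz : Zn p (k + 1) K) {D : RD0 K p ζ} {L : LDs D Ω} (Q : DP K Ω)
    (Fr : FR L) {I : ((Gal(Ω/K) → Gal(Ω/K) → Gal(Ω/K) → ZMod (p ^ m)) ×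
      (Pl K → Gal(Ω/K) → Gal(Ω/K) → ZMod (p ^ m))) →+ AddCircle (1 : ℝ)}
    (hI : FnR p k m D L Q Fr I) : FF p k m D L Q Fr I := by
  intro R _ _ e he ρ hexp hρ hiv h0
  refine f2 hk hp hp2 hζ hz Q Fr (fun r => ⟨k, hexp r⟩) he hρ (fun v _ τ _ => hexp _) hiv ?_
  rintro v hv x b hxb ⟨l, ⟨E, hE, hEl⟩, hl⟩
  have h1 := hI (fun σ τ => ST.tz p m (cu p ζ x b σ τ))
    (fun v' σ => if v' = v then ST.tz p m (l σ) else 0) (ff_lfk hk hp hζ L x b) (fun v' => by
      refine ⟨E, hE, fun σ u hu => ?_⟩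
      simp only [hEl σ u hu])
  have h2 : d2 (fun σ τ : Gal(Ω/K) => ST.tz p m (cu p ζ x b σ τ)) = 0 := by
    funext σ τ υ
    show ST.tz p m (cu p ζ x b τ υ) - ST.tz p m (cu p ζ x b (σ * τ) υ) +
      ST.tz p m (cu p ζ x b σ (τ * υ)) - ST.tz p m (cu p ζ x b σ τ) = 0
    rw [← map_sub, ← map_add, ← map_sub, ← map_zero (ST.tz p m)]
    congr 1
    simp only [cu]
    rw [kk_mul, kk_mul]
    ring
  have h3 : (rs D Q fun v' σ τ => ST.tz p m (cu p ζ x b σ τ) -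
      d1 (fun σ : Gal(Ω/K) => if v' = v then ST.tz p m (l σ) else 0) σ τ) =
      rs D Q (at1 e ρ v) := by
    funext v' σ τ
    unfold rs
    by_cases hc : v' ∈ D.S0 ∧ σ ∈ dec (K := K) (Q.P v') ∧ τ ∈ dec (K := K) (Q.P v')
    · rw [if_pos hc, if_pos hc]
      unfold at1 d1
      by_cases hvv : v' = v
      · subst hvv
        simp only [if_true]
        have h4 := hl σ hc.2.1 τ hc.2.2
        have h5 : e (ρ σ) (ρ τ) = cu p ζ x b σ τ - (l τ - l (σ * τ) + l σ) := by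
          rw [h4]
          show e (ρ σ) (ρ τ) = cu p ζ x b σ τ - (l τ - (l σ + l τ + (e (ρ σ) (ρ τ) -
            cu p ζ x b σ τ)) + l σ)
          ring
        rw [h5, map_sub, map_add, map_sub]
      · simp only [if_neg hvv]
        have h4 := (hxb v' hc.1 hvv σ hc.2.1).1
        rw [cu, h4, zero_mul, map_zero]
        ring
    · rw [if_neg hc, if_neg hc]
  rw [h2, h3, h0 v hv, ff_ts hp hm] at h1
  have h6 : ST.tz p m (tsx Fr x b) = 0 := by
    apply ZMod.toAddCircle_injective (N := p ^ m)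
    rw [← h1, map_zero]
  apply ST.tz_inj hp hm
  rw [h6, map_zero]

theorem ff {k m : ℕ} [NeZero (p ^ m)] (hk : 0 < k) (hm : 1 ≤ m) (hp : p.Prime) (hp2 : p ≠ 2)
    (hζ : IsPrimitiveRoot ζ p) (hz : Zn p (k + 1) K) {D : RD0 K p ζ} {L : LDs D Ω} (Q : DP K Ω)
    (Fr : FR L) {I : ((Gal(Ω/K) → Gal(Ω/K) → Gal(Ω/K) → ZMod (p ^ m)) ×
      (Pl K → Gal(Ω/K) → Gal(Ω/K) → ZMod (p ^ m))) →+ AddCircle (1 : ℝ)}
    (hI : FnR p k m D L Q Fr I) : FF p k m D L Q Fr I :=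
  ffR hk hm hp (mone_odd hp hp2 K) hζ hz Q Fr hI

end H82.SF
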