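import Pool.Agent.H82.SF.Lva

/-!
# [H82 SF LVC] approximation

* `chr`: `lock` (H63/MC/CLkC.lean) for `S = {v}` and the prime `P`: take `Q` from `exists_DP` and replace `Q.P v` by `P` (`Function.update`); the character `σ ↦ ofAdd (f σ)` on `dec P`
  (`dc_dec`, H89/BRG/Qd.lean); `f 1 = 0` from `hadd`.
* `at_exS`: `lock` for `insert v S`, `Q` from `exists_DP`, the characters `δ v = kc x` restricted to `dec (Q.P v)` and `δ v' = 1` for `v' ≠ v` gives `x'` with `kk x' = kk x` on `dec (Q.P v)` and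
  `kk x' = 0` on `dec (Q.P v')`; then `lv_of`, `kk_mul_arg`, `kk_zpow_arg`. (The level of `kk x`: `gtriv_kk`, `kc_ft`.)
* `at_ex`: `at_exS` for `S` the set of the primes above `p` (`finite_above`). `lc_at`: the choice has the property.
-/



set_option autoImplicit false

open scoped NumberField Pointwise
open IsDedekindDomain
open scoped Classical

noncomputable section

namespace H82.SF

open H63.MA H57.PC H57.BRA H89.BRG H57.RQ

variable {K : Type} [Field K] [NumberField K] {Ω : Type} [Field Ω] [Algebra K Ω]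
  [IsAlgClosure K Ω] {p : ℕ} {ζ : K}

private theorem dcd {K : Type} [Field K] {Ω : Type} [Field Ω] [Algebra K Ω] (P : Ideal (𝓞 Ω))
    (σ : Gal(Ω/K)) (h : σ ∈ Dc K P) : σ ∈ dec (K := K) P := by
  intro x
  have h1 : σ • P = P := h
  conv_lhs => rw [← h1]
  exact Ideal.smul_mem_pointwise_smul_iff

/-- approximation at finitely many primes -/
theorem at_exS (hp : p.Prime) (hζ : IsPrimitiveRoot ζ p) (S : Finset (Pl K)) (v : Pl K) (x : Kˣ) :
    ∃ x' : Kˣ, Lv p ζ Ω v (x' * x⁻¹) ∧ ∀ v' ∈ S, v' ≠ v → Lv p ζ Ω v' x' := by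
  obtain ⟨Q⟩ := exists_DP K Ω
  obtain ⟨δ, hδ⟩ : ∃ δ : (v' : Pl K) → dec (K := K) (Q.P v') →* Multiplicative (ZMod p),
      ∀ v', δ v' = if v' = v then (kc p ζ Ω x).comp (dec (K := K) (Q.P v')).subtype else 1 :=
    ⟨fun v' => if v' = v then (kc p ζ Ω x).comp (dec (K := K) (Q.P v')).subtype else 1, fun _ => rfl⟩
  obtain ⟨E, hE, hE1⟩ := (kc_is (Ω := Ω) hp hζ x).1
  obtain ⟨x', hx'⟩ := lock hp hζ (insert v S) Q δ (fun v' _ => by
    refine ⟨E, hE, fun u hu => ?_⟩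
    rw [hδ]
    split_ifs
    · exact hE1 hu
    · rfl)
  refine ⟨x', ?_, fun v' hv' hne => ?_⟩
  · refine lv_of hp hζ (Q.prime v) (Q.under v) fun σ hσ => ?_
    have h1 := hx' v (Finset.mem_insert_self _ _) ⟨σ, dcd _ σ hσ⟩
    rw [hδ, if_pos rfl] at h1
    have h2 : kk p ζ x' σ = kk p ζ x σ := h1
    have h3 : x⁻¹ = x ^ (-1 : ℤ) := (zpow_neg_one x).symm
    rw [kk_mul_arg hp hζ, h2, h3, kk_zpow_arg hp hζ, Int.cast_neg, Int.cast_one, neg_one_mul,
      add_neg_cancel]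
  · refine lv_of hp hζ (Q.prime v') (Q.under v') fun σ hσ => ?_
    have h1 := hx' v' (Finset.mem_insert_of_mem hv') ⟨σ, dcd _ σ hσ⟩
    rw [hδ, if_neg hne] at h1
    exact h1

theorem at_ex (hp : p.Prime) (hζ : IsPrimitiveRoot ζ p) (v : Pl K) (x : Kˣ) :
    ∃ x' : Kˣ, At p ζ Ω v x x' := by
  obtain ⟨x', h1, h2⟩ := at_exS (Ω := Ω) hp hζ (finite_above (K := K) hp.ne_zero).toFinset v x
  refine ⟨x', h1, fun v' hv' hne => h2 v' ?_ hne⟩
  rw [Set.Finite.mem_toFinset]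
  exact hv'

theorem lc_at (hp : p.Prime) (hζ : IsPrimitiveRoot ζ p) (v : Pl K) (x : Kˣ) :
    At p ζ Ω v x (lc p ζ Ω v x) := by
  unfold lc
  rw [dif_pos (at_ex hp hζ v x)]
  exact (at_ex hp hζ v x).choose_spec

/-- characters of the decomposition group -/
theorem chr (hp : p.Prime) (hζ : IsPrimitiveRoot ζ p) {v : Pl K} {P : Ideal (𝓞 Ω)}
    (hP : P.IsPrime) (hPv : P.under (𝓞 K) = v.asIdeal) {f : Gal(Ω/K) → ZMod p} (hf : Lev f)
    (hadd : ∀ σ ∈ Dc K P, ∀ τ ∈ Dc K P, f (σ * τ) = f σ + f τ) :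
    ∃ c : Kˣ, ∀ σ ∈ Dc K P, kk p ζ c σ = f σ := by
  obtain ⟨Q⟩ := exists_DP K Ω
  obtain ⟨Q', hQ'⟩ : ∃ Q' : DP K Ω, Q'.P v = P := by
    refine ⟨⟨Function.update Q.P v P, fun v' => ?_, fun v' => ?_⟩, Function.update_self v P Q.P⟩
    · by_cases h : v' = v
      · rw [h, Function.update_self]
        exact hP
      · rw [Function.update_of_ne h]
        exact Q.prime v'
    · by_cases h : v' = v
      · rw [h, Function.update_self]
        exact hPv
      · rw [Function.update_of_ne h]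
        exact Q.under v'
  have hadd' : ∀ σ τ : dec (K := K) (Q'.P v), f ((σ * τ : dec (K := K) (Q'.P v)) : Gal(Ω/K)) =
      f (σ : Gal(Ω/K)) + f (τ : Gal(Ω/K)) := by
    have hdc : ∀ σ : Gal(Ω/K), σ ∈ dec (K := K) (Q'.P v) → σ ∈ Dc K P := by
      intro σ h1
      rw [hQ'] at h1
      change σ • P = P
      ext x
      rw [Ideal.mem_pointwise_smul_iff_inv_smul_mem]
      exact ((dec (K := K) P).inv_mem h1) x
    intro σ τ
    exact hadd _ (hdc σ σ.2) _ (hdc τ τ.2)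
  obtain ⟨δ, hδ⟩ : ∃ δ : (v' : Pl K) → dec (K := K) (Q'.P v') →* Multiplicative (ZMod p),
      ∀ v', (∀ σ τ : dec (K := K) (Q'.P v'), f ((σ * τ : dec (K := K) (Q'.P v')) : Gal(Ω/K)) =
        f (σ : Gal(Ω/K)) + f (τ : Gal(Ω/K))) → ∀ u, δ v' u = Multiplicative.ofAdd (f (u : Gal(Ω/K))) := by
    refine ⟨fun v' => if h : (∀ σ τ : dec (K := K) (Q'.P v'),
      f ((σ * τ : dec (K := K) (Q'.P v')) : Gal(Ω/K)) = f (σ : Gal(Ω/K)) + f (τ : Gal(Ω/K))) then
        MonoidHom.mk' (fun u => Multiplicative.ofAdd (f (u : Gal(Ω/K)))) (fun σ τ => by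
          show Multiplicative.ofAdd (f ((σ * τ : dec (K := K) (Q'.P v')) : Gal(Ω/K))) = _
          rw [h σ τ, ofAdd_add]) else 1, fun v' h u => ?_⟩
    show (dite _ _ _ : dec (K := K) (Q'.P v') →* Multiplicative (ZMod p)) u = _
    rw [dif_pos h]
    rfl
  have hf1 : f 1 = 0 := by
    have h1 := hadd' 1 1
    rw [mul_one] at h1
    have h2 : f (1 : Gal(Ω/K)) = f 1 + f 1 := h1
    exact left_eq_add.1 h2
  obtain ⟨E, hE, hE1⟩ := hf
  obtain ⟨b, hb⟩ := lock hp hζ {v} Q' δ (fun v' hv' => by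
    rw [Finset.mem_singleton] at hv'
    subst hv'
    refine ⟨E, hE, fun u hu => ?_⟩
    rw [hδ _ hadd']
    have h1 := hE1 1 (u : Gal(Ω/K)) hu
    rw [one_mul, hf1] at h1
    rw [h1, ofAdd_zero])
  refine ⟨b, fun σ hσ => ?_⟩
  have h1 : σ ∈ dec (K := K) (Q'.P v) := by
    rw [hQ']
    exact dcd P σ hσ
  have h2 := hb v (Finset.mem_singleton_self v) ⟨σ, h1⟩
  rw [hδ v hadd'] at h2
  exact h2

end H82.SF
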