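import Pool.Agent.H82.SF.Df
import Pool.Agent.H63.MC.CLkC

/-!
# [H82 SF LVA] local `p`-th powers

* `lv_one`, `lv_mul`, `lv_inv`, `lv_pow`: `kk_mul_arg`, `kk_zpow_arg` (H63/MA). `lv_cong`: from `kk_mul_arg` (`x = x * y⁻¹ * y`).
* `lv_of`: it is enough to know one prime `P` over `v`: `ltr_conj` (H57/BRA/Ltr) gives `g` with `x ∈ P' ↔ g⁻¹ • x ∈ P`, so `g⁻¹ σ g ∈ Dc K P` for `σ ∈ Dc K P'` (see the proof of
  `kl_conj` in H89/BRG/Dec.lean), and `kk x (g⁻¹ σ g) = kk x σ` (`kk_mul`).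
* `lv_locP`: `v` above `p`, `LocP p v x` (`x * y^(-p)` is `1` modulo more than `p ^ 2`); `lv_spl`: `v` not above `p`, `Spl p ζ v x`. Both as in `ps_triv` (H63/MC/CLkC.lean), for one place:
  `cl_of_val`, `cl_kk` (H63/MC/CLkA.lean); `dc_dec` (H89/BRG/Qd.lean) identifies `Dc K P` with `dec P`. A prime over `v` is not `⊥` (copy the private `clkc_ne`).
-/


set_option autoImplicit false

open scoped NumberField Pointwise
open IsDedekindDomain
open scoped Classical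

noncomputable section

namespace H82.SF

open H63.MA H57.PC H57.BRA H89.BRG H57.RQ

variable {K : Type} [Field K] [NumberField K] {Ω : Type} [Field Ω] [Algebra K Ω]
  [IsAlgClosure K Ω] {p : ℕ} {ζ : K}

omit [IsAlgClosure K Ω] in
private theorem lva_ne {v : Pl K} {P : Ideal (𝓞 Ω)} (hPv : P.under (𝓞 K) = v.asIdeal) : P ≠ ⊥ := by
  intro h
  rw [h] at hPv
  apply v.ne_bot
  rw [← hPv]
  have hinj : Function.Injective (algebraMap (𝓞 K) (𝓞 Ω)) :=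
    NumberField.RingOfIntegers.algebraMap.injective K Ω
  rw [Ideal.under, ← RingHom.ker_eq_comap_bot, (RingHom.injective_iff_ker_eq_bot _).mp hinj]

omit [NumberField K] [IsAlgClosure K Ω] in
private theorem lva_dec {P : Ideal (𝓞 Ω)} {σ : Gal(Ω/K)} (h : σ ∈ Dc K P) : σ ∈ dec (K := K) P := by
  intro x
  have h1 : σ • P = P := h
  conv_lhs => rw [← h1]
  exact Ideal.smul_mem_pointwise_smul_iff

private theorem lva_val (hp : p.Prime) (hζ : IsPrimitiveRoot ζ p) {v : Pl K} {x : Kˣ}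
    (h : ∃ y : Kˣ, v.valuation K (((x * (y ^ p)⁻¹ : Kˣ) : K) - 1) < v.valuation K ((p : K) ^ 2)) :
    Lv p ζ Ω v x := by
  obtain ⟨y, hy⟩ := h
  intro P hP hPv σ hσ
  have h1 := cl_of_val v P hP hPv (x * (y ^ p)⁻¹) hy
  have h2 := cl_kk hp hζ P hP (lva_ne hPv) (x * (y ^ p)⁻¹) h1 σ (lva_dec hσ)
  have h3 : x = x * (y ^ p)⁻¹ * y ^ (p : ℤ) := by
    rw [zpow_natCast, inv_mul_cancel_right]
  rw [h3, kk_mul_arg hp hζ, h2, kk_zpow_arg hp hζ, zero_add, Int.cast_natCast, CharP.cast_eq_zero,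
    zero_mul]

theorem lv_one (hp : p.Prime) (hζ : IsPrimitiveRoot ζ p) (v : Pl K) : Lv p ζ Ω v 1 := by
  intro P _ _ σ _
  exact gkum_one_arg hp hζ σ

theorem lv_mul (hp : p.Prime) (hζ : IsPrimitiveRoot ζ p) {v : Pl K} {x y : Kˣ}
    (hx : Lv p ζ Ω v x) (hy : Lv p ζ Ω v y) : Lv p ζ Ω v (x * y) := by
  intro P hP hPv σ hσ
  rw [kk_mul_arg hp hζ, hx P hP hPv σ hσ, hy P hP hPv σ hσ, add_zero]

theorem lv_inv (hp : p.Prime) (hζ : IsPrimitiveRoot ζ p) {v : Pl K} {x : Kˣ}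
    (hx : Lv p ζ Ω v x) : Lv p ζ Ω v x⁻¹ := by
  intro P hP hPv σ hσ
  rw [← zpow_neg_one, kk_zpow_arg hp hζ, hx P hP hPv σ hσ, mul_zero]

theorem lv_pow (hp : p.Prime) (hζ : IsPrimitiveRoot ζ p) (v : Pl K) (x : Kˣ) :
    Lv p ζ Ω v (x ^ p) := by
  intro P hP hPv σ hσ
  rw [← zpow_natCast, kk_zpow_arg hp hζ, Int.cast_natCast, CharP.cast_eq_zero, zero_mul]

theorem lv_of (hp : p.Prime) (hζ : IsPrimitiveRoot ζ p) {v : Pl K} {x : Kˣ} {P : Ideal (𝓞 Ω)}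
    (hP : P.IsPrime) (hPv : P.under (𝓞 K) = v.asIdeal) (h : ∀ σ ∈ Dc K P, kk p ζ x σ = 0) :
    Lv p ζ Ω v x := by
  intro P' hP' hPv' σ hσ
  obtain ⟨g, hg⟩ := ltr_conj hP hP' hPv hPv'
  have hgP : P' = g • P := by
    ext x
    rw [hg, Ideal.mem_pointwise_smul_iff_inv_smul_mem]
  have hdc : g⁻¹ * σ * g ∈ Dc K P := by
    have h1 : σ • P' = P' := hσ
    change (g⁻¹ * σ * g) • P = P
    rw [mul_smul, mul_smul, ← hgP, h1, hgP, inv_smul_smul]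
  have h2 := h _ hdc
  rw [kk_mul, kk_mul] at h2
  have h3 : kk p ζ x g⁻¹ + kk p ζ x g = 0 := by
    rw [← kk_mul, inv_mul_cancel, kk_one]
  linear_combination h2 - h3

theorem lv_cong (hp : p.Prime) (hζ : IsPrimitiveRoot ζ p) {v : Pl K} {x y : Kˣ}
    (h : Lv p ζ Ω v (x * y⁻¹)) {P : Ideal (𝓞 Ω)} (hP : P.IsPrime)
    (hPv : P.under (𝓞 K) = v.asIdeal) (σ : Gal(Ω/K)) (hσ : σ ∈ Dc K P) :
    kk p ζ x σ = kk p ζ y σ := by
  have h1 := h P hP hPv σ hσ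
  have h2 : x = x * y⁻¹ * y := by rw [inv_mul_cancel_right]
  rw [h2, kk_mul_arg hp hζ, h1, zero_add]

theorem lv_locP (hp : p.Prime) (hζ : IsPrimitiveRoot ζ p) {v : Pl K} (hv : Above p v) {x : Kˣ}
    (h : LocP p v x) : Lv p ζ Ω v x := lva_val hp hζ h

theorem lv_spl (hp : p.Prime) (hζ : IsPrimitiveRoot ζ p) {v : Pl K} (hv : ¬ Above p v) {x : Kˣ}
    (h : Spl p ζ v x) : Lv p ζ Ω v x := by
  obtain ⟨y, hy⟩ := (spl_iff hp hζ hv x).1 h
  refine lva_val hp hζ ⟨y, ?_⟩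
  have h1 : v.valuation K (p : K) = 1 := by
    apply le_antisymm
    · have h2 := v.valuation_le_one (K := K) (p : 𝓞 K)
      simpa using h2
    · rw [← not_lt]
      intro h
      exact hv ((above_iff p v).2 h)
  rw [map_pow, h1, one_pow]
  exact hy


end H82.SF
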