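import Pool.Agent.H82.SF.Plc
import Pool.Agent.H73.FF.Cor

/-!
# [H82 SF TRK] the Kummer character of a norm is the transfer

* `tr_kk`: `g i ∈ Γ` with `kk c (g i) = i` (`i ∈ ZMod p`), `σ ∈ Γ`, `rsK (h i) = g i * σ * (g (i + kk c σ))⁻¹` (these are in the image of `rsK`, `bca_range`). Then `kk (N y) σ = ∑ i, kk y (h i)`.
  Proof: `B ^ p = y` in `Ω` (`gkum_root` over `L`). `C = ∏ i, (g i)⁻¹ B`. `C ^ p = ∏ i, (g i)⁻¹ (y) = N y` (the `(g i)⁻¹` restricted to `L` are the `H.σ ^ k`, `k = (-i).val`: `kum_norm`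
  (H63/MA/KumD.lean), or as in `nra_norm` / `nra_tv` (H89/BRG/NrA.lean); `g⁻¹ γ = ζ ^ (-i) γ`). `σ (g (i + s))⁻¹ = (g i)⁻¹ (rsK (h i))` with `s = kk c σ`, so
  `σ C = ∏ i, σ (g (i + s))⁻¹ B = ∏ i, (g i)⁻¹ (h i B) = ∏ i, ζ ^ (kk y (h i)) (g i)⁻¹ B` (`kk_root`), `kk_of_root`.
* `lv_nm`: if `y` is `Lv` at all `w'` over `v'` then `N y` is `Lv` at `v'`. Proof: `P` over `v'`, `σ ∈ Dc K P`. Case `kk c = 0` on `Dc K P`: choose any `g`; `g i σ (g i)⁻¹ ∈ Dc K (g i P)`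
  (`kk c σ = 0`), so `h i ∈ Dc L (g i P)` (`dc_iff`), and `g i P` (the ideal `{x | (g i)⁻¹ • x ∈ P}`) is a prime over some `w'` over `v'`, so `kk y (h i) = 0`. Case `kk c δ = 1` for a
  `δ ∈ Dc K P`: choose `g i = δ ^ i.val`, so `g i σ (g (i + s))⁻¹ ∈ Dc K P` and `h i ∈ Dc L P`.
  `exists_below`, `Over` for the prime of `𝓞 L` under a prime `P` of `𝓞 Ω`: it is a nonzero prime (see `den_prime`, H89/BRG/Den.lean).
-/

set_option autoImplicit false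

open scoped NumberField Pointwise
open IsDedekindDomain
open scoped Classical

noncomputable section

namespace H82.SF

open H63.MA H57.PC H57.BRA H89.BRG H57.RQ

variable {K : Type} [Field K] [NumberField K] {Ω : Type} [Field Ω] [Algebra K Ω]
  [IsAlgClosure K Ω] {p : ℕ} {ζ : K} {L : Type} [Field L] [NumberField L] [Algebra K L]
  [Algebra L Ω] [IsScalarTower K L Ω] [IsAlgClosure L Ω]

private theorem trk_kpow (c : Kˣ) (s : Gal(Ω/K)) (n : ℕ) :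
    kk p ζ c (s ^ n) = n * kk p ζ c s := by
  induction n with
  | zero => rw [pow_zero, kk_one, Nat.cast_zero, zero_mul]
  | succ n ih => rw [pow_succ, kk_mul, ih]; push_cast; ring

private theorem trk_kinv (c : Kˣ) (s : Gal(Ω/K)) : kk p ζ c s⁻¹ = - kk p ζ c s := by
  have h1 := kk_mul (p := p) (ζ := ζ) c s⁻¹ s
  rw [inv_mul_cancel, kk_one] at h1
  exact (neg_eq_of_add_eq_zero_left h1.symm).symm

/-- elements with the same `kk c` act in the same way on `L` -/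
private theorem trk_same (hp : p.Prime) (hζ : IsPrimitiveRoot ζ p) {c : Kˣ} (H : Kum p K ζ c L)
    {a b : Gal(Ω/K)} (hab : kk p ζ c a = kk p ζ c b) (z : L) :
    a (algebraMap L Ω z) = b (algebraMap L Ω z) := by
  have h1 : kk p ζ c (b⁻¹ * a) = 0 := by
    rw [kk_mul, trk_kinv, hab, neg_add_cancel]
  obtain ⟨σ', hσ'⟩ := (bca_range hp hζ H _).1 h1
  have h2 : (b⁻¹ * a) (algebraMap L Ω z) = algebraMap L Ω z := by
    rw [← hσ', rsK_apply]
    exact σ'.commutes z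
  have h3 : a = b * (b⁻¹ * a) := by group
  rw [h3, AlgEquiv.mul_apply, h2]

theorem tr_kk [NeZero p] (hp : p.Prime) (hζ : IsPrimitiveRoot ζ p) {c : Kˣ}
    (H : Kum p K ζ c L) (y : Lˣ) (g : ZMod p → Gal(Ω/K)) (hg : ∀ i, kk p ζ c (g i) = i)
    (σ : Gal(Ω/K)) (h : ZMod p → Gal(Ω/L))
    (hh : ∀ i, rsK K L Ω (h i) = g i * σ * (g (i + kk p ζ c σ))⁻¹) :
    kk p ζ (Nm K L y) σ = ∑ i, kk p (algebraMap K L ζ) y (h i) := by
  have hζL : IsPrimitiveRoot (algebraMap K L ζ) p := hζ.map_of_injective (algebraMap K L).injective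
  have hp1 : Fact (1 < p) := ⟨hp.one_lt⟩
  obtain ⟨B, hBy⟩ : ∃ B : Ω, B ^ p = algebraMap L Ω (y : L) := by
    have : IsAlgClosed Ω := IsAlgClosure.isAlgClosed K
    exact IsAlgClosed.exists_pow_nat_eq _ hp.pos
  obtain ⟨β, hβ⟩ : ∃ β : Ω, β = ∏ i : ZMod p, (g i)⁻¹ B := ⟨_, rfl⟩
  have hβp : β ^ p = algebraMap K Ω ((Nm K L y : Kˣ) : K) := by
    rw [H73.FF.nm_sp hp hζ H (hg 1), hβ, ← Finset.prod_pow, ← Fin.prod_univ_eq_prod_range
      (fun i => (g 1 ^ i) (algebraMap L Ω (y : L))) p]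
    have e1 : ∀ i : ZMod p, ((g i)⁻¹ B) ^ p = (g 1 ^ (-i).val) (algebraMap L Ω (y : L)) := by
      intro i
      rw [← map_pow, hBy]
      apply trk_same hp hζ H
      rw [trk_kinv, hg, trk_kpow, hg, mul_one, ZMod.natCast_zmod_val]
    rw [Finset.prod_congr rfl fun i _ => e1 i]
    refine (Equiv.prod_comp (Equiv.neg (ZMod p))
      (fun i : ZMod p => (g 1 ^ i.val) (algebraMap L Ω (y : L)))).trans ?_
    obtain ⟨q, rfl⟩ : ∃ q, p = q + 1 := ⟨p - 1, by have := hp.pos; omega⟩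
    rfl
  have hkey : ∀ i : ZMod p, σ ((g (i + kk p ζ c σ))⁻¹ B) =
      algebraMap K Ω ζ ^ (kk p (algebraMap K L ζ) y (h i)).val * (g i)⁻¹ B := by
    intro i
    have h2 := kk_root hp hζL y B hBy (h i)
    have h3 : σ * (g (i + kk p ζ c σ))⁻¹ = (g i)⁻¹ * rsK K L Ω (h i) := by
      rw [hh]
      group
    have h5 : σ ((g (i + kk p ζ c σ))⁻¹ B) = (σ * (g (i + kk p ζ c σ))⁻¹) B := rfl
    rw [h5, h3, AlgEquiv.mul_apply, rsK_apply, h2, map_mul, map_pow, ← IsScalarTower.algebraMap_apply K L Ω,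
      AlgEquiv.commutes]
  have hx : σ β = algebraMap K Ω ζ ^ (((∑ i : ZMod p, (kk p (algebraMap K L ζ) y (h i)).val : ℕ)) : ℤ) * β := by
    have h1 : β = ∏ i : ZMod p, (g (i + kk p ζ c σ))⁻¹ B := by
      rw [hβ]
      exact (Equiv.prod_comp (Equiv.addRight (kk p ζ c σ)) (fun i : ZMod p => (g i)⁻¹ B)).symm
    conv_lhs => rw [h1]
    rw [map_prod, Finset.prod_congr rfl fun i _ => hkey i, Finset.prod_mul_distrib, ← hβ,
      Finset.prod_pow_eq_pow_sum, zpow_natCast]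
  have h1 := kk_of_root hp hζ (Nm K L y) β hβp σ _ hx
  rw [h1]
  push_cast
  refine Finset.sum_congr rfl fun i _ => ?_
  rw [ZMod.natCast_zmod_val]

/-- the prime of `L` under `P` -/
private theorem trk_prime {P : Ideal (𝓞 Ω)} (hP : P.IsPrime) {v : Pl K} (hv : P.under (𝓞 K) = v.asIdeal) :
    ∃ w : Pl L, P.under (𝓞 L) = w.asIdeal ∧ Over w v := by
  have h1 : (P.under (𝓞 L)).comap (algebraMap (𝓞 K) (𝓞 L)) = v.asIdeal := by
    have h2 : ∀ x : 𝓞 K, algebraMap (𝓞 K) (𝓞 Ω) x =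
        algebraMap (𝓞 L) (𝓞 Ω) (algebraMap (𝓞 K) (𝓞 L) x) := by
      intro x
      apply NumberField.RingOfIntegers.ext
      exact IsScalarTower.algebraMap_apply K L Ω (x : K)
    rw [← hv]
    ext x
    change algebraMap (𝓞 L) (𝓞 Ω) (algebraMap (𝓞 K) (𝓞 L) x) ∈ P ↔ algebraMap (𝓞 K) (𝓞 Ω) x ∈ P
    rw [h2]
  refine ⟨⟨P.under (𝓞 L), inferInstance, ?_⟩, rfl, h1⟩
  intro h0
  rw [h0] at h1
  apply v.ne_bot
  rw [← h1, eq_bot_iff]
  intro x hx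
  have h2 : algebraMap (𝓞 K) (𝓞 L) x = 0 := hx
  have h3 : algebraMap K L (x : K) = 0 := congrArg (fun z : 𝓞 L => (z : L)) h2
  have h4 : (x : K) = 0 := (map_eq_zero _).1 h3
  exact NumberField.RingOfIntegers.ext h4

/-- the prime of `K` under a conjugate -/
private theorem trk_conj (g : Gal(Ω/K)) {P : Ideal (𝓞 Ω)} {v : Pl K} (hv : P.under (𝓞 K) = v.asIdeal) :
    (g • P).under (𝓞 K) = v.asIdeal := by
  rw [← hv]
  ext x
  change algebraMap (𝓞 K) (𝓞 Ω) x ∈ g • P ↔ algebraMap (𝓞 K) (𝓞 Ω) x ∈ P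
  rw [Ideal.mem_pointwise_smul_iff_inv_smul_mem]
  have h1 : g⁻¹ • algebraMap (𝓞 K) (𝓞 Ω) x = algebraMap (𝓞 K) (𝓞 Ω) x := by
    apply NumberField.RingOfIntegers.ext
    exact (g⁻¹).commutes (x : K)
  rw [h1]

theorem lv_nm (hp : p.Prime) (hζ : IsPrimitiveRoot ζ p) {c : Kˣ} (H : Kum p K ζ c L) (y : Lˣ)
    {v : Pl K} (h : ∀ w : Pl L, Over w v → Lv p (algebraMap K L ζ) Ω w y) :
    Lv p ζ Ω v (Nm K L y) := by
  have hf : Fact p.Prime := ⟨hp⟩
  have hp0 : NeZero p := ⟨hp.ne_zero⟩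
  intro P hP hPv σ hσ
  -- a transversal and primes
  obtain ⟨g, hg, hgD⟩ : ∃ g : ZMod p → Gal(Ω/K), (∀ i, kk p ζ c (g i) = i) ∧
      ∀ i, g i * σ * (g (i + kk p ζ c σ))⁻¹ ∈ Dc K (g i • P) := by
    by_cases h0 : ∀ δ ∈ Dc K P, kk p ζ c δ = 0
    · have h1 : ¬ ∀ σ : Gal(Ω/K), kk p ζ c σ = 0 :=
        fun hc => kum_not_pow hp hζ H ((kk_eq_zero_iff hp hζ c).1 hc)
      push Not at h1
      obtain ⟨s, hs⟩ := h1
      refine ⟨fun i => s ^ (i * (kk p ζ c s)⁻¹).val, fun i => ?_, fun i => ?_⟩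
      · rw [trk_kpow, ZMod.natCast_zmod_val, mul_assoc, inv_mul_cancel₀ hs, mul_one]
      · simp only [h0 σ hσ, add_zero]
        have h2 : σ • P = P := hσ
        change (_ * σ * _⁻¹) • _ • P = _ • P
        rw [mul_smul, inv_smul_smul, mul_smul, h2]
    · push Not at h0
      obtain ⟨s, hsD, hs⟩ := h0
      have hD : ∀ i : ZMod p, s ^ (i * (kk p ζ c s)⁻¹).val ∈ Dc K P := fun i => (Dc K P).pow_mem hsD _
      refine ⟨fun i => s ^ (i * (kk p ζ c s)⁻¹).val, fun i => ?_, fun i => ?_⟩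
      · rw [trk_kpow, ZMod.natCast_zmod_val, mul_assoc, inv_mul_cancel₀ hs, mul_one]
      · have h3 : (s ^ (i * (kk p ζ c s)⁻¹).val) • P = P := hD i
        simp only
        rw [h3]
        exact (Dc K P).mul_mem ((Dc K P).mul_mem (hD i) hσ) ((Dc K P).inv_mem (hD _))
  -- the elements of `Gal(Ω/L)`
  have hk0 : ∀ i, kk p ζ c (g i * σ * (g (i + kk p ζ c σ))⁻¹) = 0 := by
    intro i
    rw [kk_mul, kk_mul, trk_kinv, hg, hg]
    ring
  have hex : ∀ i, ∃ σ' ∈ Dc L (g i • P), rsK K L Ω σ' = g i * σ * (g (i + kk p ζ c σ))⁻¹ := fun i =>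
    dc_lift hp hζ H (hgD i) (hk0 i)
  choose h' hh1 hh2 using hex
  rw [tr_kk hp hζ H y g hg σ h' hh2]
  refine Finset.sum_eq_zero fun i _ => ?_
  have hPi : (g i • P).IsPrime := inferInstance
  obtain ⟨w, hw, hwv⟩ := trk_prime (L := L) hPi (trk_conj (g i) hPv)
  exact h w hwv (g i • P) hPi hw (h' i) (hh1 i)

end H82.SF
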