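import Pool.Agent.H82.SF.Hsb
import Pool.Agent.H82.SF.Trk
import Pool.Agent.H57.RN.Ncs

/-!
# [H82 SF ADJ] adjointness of the inclusion and the norm

`L = K(c^(1/p))`, `c` not a `p`-th power at `v`, `w` over `v` (the only one, `one_over`), `y ∈ L^*`. There is `y1`, equal to `y` at `w`, with `hs_K v a (N y1) = hs_L w (inc a) y` for all `a ∈ K^*`.
Proof. `v` above `p`: `y1` from `at_ex` over `L`: `Lv w (y1 * y⁻¹)` and `y1` is `Lv` at the other primes above `p`. For `v' ≠ v` above `p` every `w'` over `v'` is above `p` and different from `w`, so `N y1`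
is `Lv v'` (`lv_nm`). So `hs_K v a (N y1) = - hs_K v (N y1) a = - Ts (N y1) a = Ts a (N y1)` (`hs_symm`, `hs_ts`, `ts_symm`) and `hs_L w (inc a) y1 = Ts_L (inc a) y1` in the same way, and
`Ts a (N y1) = Ts_L (inc a) y1` is `nc_b1` (H57/RQ/Ncs.lean) with `t = 1`. `hs_L w (inc a) y1 = hs_L w (inc a) y` by `hs_cong_right`.
`v` not above `p`: `y1 = y`; `hs v a (N y) = - B v a (N y)`, `ncl` (H57/RQ/Ncl.lean, `k = 1`, `z = ζ`; see `b1_bk` for the comparison of `Bk p 1` and `b1`, H57/RQ/Col.lean or Ncs.lean) and there is only one prime over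
`v`, so the sum has one term. (`Above p w ↔ Above p v`: `above_over`.)
-/

set_option autoImplicit false

open scoped NumberField Pointwise
open IsDedekindDomain
open scoped Classical

noncomputable section

namespace H82.SF

open H63.MA H57.PC H57.BRA H89.BRG H57.RQ

variable {K : Type} [Field K] [NumberField K] {Ω : Type} [Field Ω] [Algebra K Ω]
  [IsAlgClosure K Ω] {p : ℕ} {ζ : K} {L : Type} [Field L] [NumberField L] [Algebra K L]
  [Algebra L Ω] [IsScalarTower K L Ω] [IsAlgClosure L Ω]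

theorem adj (hp : p.Prime) (hp2 : MOne p K) (hζ : IsPrimitiveRoot ζ p) {c : Kˣ}
    (H : Kum p K ζ c L) {v : Pl K} (hc : ¬ Lv p ζ Ω v c) {w : Pl L} (hw : Over w v) (y : Lˣ) :
    ∃ y1 : Lˣ, Lv p (algebraMap K L ζ) Ω w (y1 * y⁻¹) ∧
      ∀ a : Kˣ, hs p ζ Ω v a (Nm K L y1) = hs p (algebraMap K L ζ) Ω w (inc K L a) y := by
  have hζ' : IsPrimitiveRoot (algebraMap K L ζ) p := hζ.map_of_injective (algebraMap K L).injective
  have hpL : MOne p L := mone_map hp2 L
  by_cases hv : Above p v
  · have hwA : Above p w := (above_over hw p).2 hv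
    obtain ⟨y1, hy1, hy2⟩ := at_ex (Ω := Ω) hp hζ' w y
    refine ⟨y1, hy1, fun a => ?_⟩
    have hov : Ov p ζ Ω v (Nm K L y1) := by
      intro v' hv' hne
      refine lv_nm hp hζ H y1 fun w' hw' => hy2 w' ((above_over hw' p).2 hv') ?_
      rintro rfl
      exact hne (below_unique hw' hw)
    have e1 : hs p ζ Ω v a (Nm K L y1) = Ts p ζ a (Nm K L y1) := by
      rw [hs_symm hp hp2 hζ, hs_ts hp hp2 hζ hv hov a, ts_symm hp hζ a]
    have e2 : hs p (algebraMap K L ζ) Ω w (inc K L a) y1 =
        Ts p (algebraMap K L ζ) (inc K L a) y1 := by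
      rw [hs_symm hp hpL hζ', hs_ts hp hpL hζ' hwA hy2 (inc K L a),
        ts_symm hp hζ' (inc K L a)]
    have e3 : Ts p ζ a (Nm K L y1) = Ts p (algebraMap K L ζ) (inc K L a) y1 := by
      have h1 := N.nc_b1 hp hp2 hζ H (fun _ => 1) a y1
      simp only [one_mul] at h1
      exact h1
    rw [e1, e3, ← e2, hs_cong_right hp hpL hζ' hy1]
  · have hwA : ¬ Above p w := fun h => hv ((above_over hw p).1 h)
    refine ⟨y, ?_, fun a => ?_⟩
    · rw [mul_inv_cancel]
      exact lv_one hp hζ' w
    · have h1 := N.nc_b1 hp hp2 hζ H (fun v' => if v' = v then 1 else 0) a y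
      rw [finsum_eq_single _ v (fun v' hv' => by rw [if_neg hv', zero_mul]),
        finsum_eq_single _ w (fun w' hw' => by
          rw [if_neg (fun h : dnv K w' = v => hw' (one_over hp hζ H hc
            (by rw [← h]; exact dnv_over K w') hw)), zero_mul]),
        if_pos rfl, if_pos (below_unique (dnv_over K w) hw), one_mul, one_mul] at h1
      unfold b1 at h1
      rw [if_neg hv, if_neg hwA] at h1
      unfold hs
      rw [if_neg hv, if_neg hwA, h1]

end H82.SF
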