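import Pool.Agent.H57.RQ.Lin

/-!
# [H82 SF GRP] orthogonal complements

`f` a bilinear antisymmetric form on a commutative group with finitely many functionals, `W` a subgroup containing the radical such that everything orthogonal to `W` is a multiple of `c`. Then
`f c b = 0` implies `b ∈ W`.
Proof. Suppose `b ∉ W`. `W` contains all `x ^ p` (`f a (x ^ p) = p * f a x = 0`, `hW`), so `A ⧸ W` is a vector space over `ZMod p` (`AddCommGroup.zmodModule` for `Additive (A ⧸ W)`), and there is a linear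
functional which does not vanish at the image of `b` (e.g. `Module.exists_dual_forall_apply_eq_zero_iff`, `Module.forall_dual_apply_eq_zero_iff`): `g : A → ZMod p` additive, `g = 0` on `W`, `g b ≠ 0`.
`lin_ext` (H57/RQ/Lin.lean) with `V` the finite type of the elements of `R`, `f y`: if `f y x = 0` for `y ∈ R`, then `f a x = - f x a = 0` for all `a`: `a` has `y ∈ R` with `f x a = f x y`
(`hR`), so `x ∈ W` and `g x = 0`. So `g x = ∑ᶠ y, t y * f y x = f a x` with `a = ∏_{y ∈ R} y ^ (t y).val`. So `a` is orthogonal to `W`, `f a = t * f c`, and `g b = t * f c b = 0`, a contradiction.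
-/

set_option autoImplicit false

open scoped Classical

noncomputable section

namespace H82.SF

private theorem sep0 {F V : Type} [Field F] [AddCommGroup V] [Module F V] (v : V) (hv : v ≠ 0) :
    ∃ g : V →+ F, g v ≠ 0 := by
  by_contra hcon
  push Not at hcon
  refine hv ((Module.forall_dual_apply_eq_zero_iff F v).1 fun φ => ?_)
  exact hcon (LinearMap.toAddMonoidHom φ)

private theorem sep {V : Type} [AddCommGroup V] {p : ℕ} (hp : p.Prime) (h : ∀ x : V, p • x = 0) (v : V)
    (hv : v ≠ 0) : ∃ g : V →+ ZMod p, g v ≠ 0 := by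
  have hF : Fact p.Prime := ⟨hp⟩
  exact @sep0 (ZMod p) V _ _ (AddCommGroup.zmodModule h) v hv

private theorem f_pow {A : Type} [CommGroup A] {p : ℕ} (g : A → ZMod p) (hg : ∀ a b, g (a * b) = g a + g b) (a : A)
    (n : ℕ) : g (a ^ n) = n * g a := by
  have h1 : g 1 = 0 := by
    have h := hg 1 1
    rw [mul_one] at h
    exact left_eq_add.1 h
  induction n with
  | zero => rw [pow_zero, h1, Nat.cast_zero, zero_mul]
  | succ n ih => rw [pow_succ, hg, ih, Nat.cast_succ, add_mul, one_mul]

private theorem f_prod {A ι : Type} [CommGroup A] {p : ℕ} (g : A → ZMod p) (hg : ∀ a b, g (a * b) = g a + g b)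
    (s : Finset ι) (h : ι → A) : g (∏ i ∈ s, h i) = ∑ i ∈ s, g (h i) := by
  have h1 : g 1 = 0 := by
    have h := hg 1 1
    rw [mul_one] at h
    exact left_eq_add.1 h
  induction s using Finset.induction_on with
  | empty => rw [Finset.prod_empty, Finset.sum_empty, h1]
  | insert a s ha ih => rw [Finset.prod_insert ha, Finset.sum_insert ha, hg, ih]

theorem grp {A : Type} [CommGroup A] {p : ℕ} (hp : p.Prime) (f : A → A → ZMod p)
    (hl : ∀ a b c, f (a * b) c = f a c + f b c) (hr : ∀ a b c, f a (b * c) = f a b + f a c)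
    (hs : ∀ a b, f a b = -f b a) (R : Finset A) (hR : ∀ x, ∃ y ∈ R, ∀ a, f a x = f a y)
    (W : Subgroup A) (hW : ∀ x, (∀ a, f a x = 0) → x ∈ W) (c : A)
    (hc : ∀ a, (∀ w ∈ W, f a w = 0) → ∃ t : ZMod p, ∀ b, f a b = t * f c b) (b : A)
    (hb : f c b = 0) : b ∈ W := by
  by_contra hbW
  have hF : Fact p.Prime := ⟨hp⟩
  have hpow : ∀ x, x ^ p ∈ W := by
    intro x
    apply hW
    intro a
    rw [f_pow (f a) (hr a), CharP.cast_eq_zero, zero_mul]
  obtain ⟨φ, hφ⟩ : ∃ φ : Additive (A ⧸ W) →+ ZMod p, φ (Additive.ofMul (QuotientGroup.mk b)) ≠ 0 := by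
    refine sep hp ?_ _ ?_
    · intro x
      obtain ⟨y, hy⟩ := QuotientGroup.mk_surjective (Additive.toMul x)
      have h1 : (Additive.toMul x) ^ p = 1 := by
        rw [← hy]
        exact (QuotientGroup.eq_one_iff (y ^ p)).2 (hpow y)
      exact h1
    · intro h2
      have h3 : (QuotientGroup.mk b : A ⧸ W) = 1 := h2
      exact hbW ((QuotientGroup.eq_one_iff b).1 h3)
  obtain ⟨g, hg⟩ : ∃ g : A → ZMod p, ∀ x, g x = φ (Additive.ofMul (QuotientGroup.mk x)) := ⟨_, fun _ => rfl⟩
  have hgadd : ∀ x y, g (x * y) = g x + g y := by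
    intro x y
    rw [hg, hg, hg, ← map_add]
    rfl
  have hgW : ∀ x ∈ W, g x = 0 := by
    intro x hx
    have h1 : (QuotientGroup.mk x : A ⧸ W) = 1 := (QuotientGroup.eq_one_iff x).2 hx
    rw [hg, h1]
    exact map_zero φ
  obtain ⟨t, ht⟩ := H57.RQ.lin_ext hp (fun (y : {y // y ∈ R}) x => f (y : A) x) (fun y => hr y)
    (fun _ => Set.toFinite _) g hgadd (fun x hx => by
      apply hgW
      apply hW
      intro a
      obtain ⟨y, hy, h1⟩ := hR a
      rw [hs, h1 x, hs, hx ⟨y, hy⟩, neg_zero, neg_zero])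
  have ha : ∀ x, f (∏ y : {y // y ∈ R}, (y : A) ^ (t y).val) x = g x := by
    intro x
    rw [f_prod (fun a => f a x) (fun a b => hl a b x), ht x, finsum_eq_sum_of_fintype]
    refine Finset.sum_congr rfl fun y _ => ?_
    have h1 := f_pow (fun a => f a x) (fun a b => hl a b x) (y : A) (t y).val
    rw [ZMod.natCast_val, ZMod.cast_id] at h1
    exact h1
  obtain ⟨s, h2⟩ := hc _ (fun w hw => by rw [ha, hgW w hw])
  apply hφ
  rw [← hg, ← ha, h2, hb, mul_zero]

end H82.SF
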