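import Pool.Agent.H82.SF.Adj
import Pool.Agent.H82.SF.Grp
import Pool.Agent.H89.BRG.NrA

/-!
# [H82 SF CC] `hs v c b = 0` implies that the cup product is trivial on the decomposition group

Proof. If `Lv v c` the cochain `cu c b` is `0` on `Dc K P` (`kl_zero`, `kl_congr`). Otherwise `c` is not a `p`-th power (`lv_pow`); `L`, `H` from `bca_exists`, `IsAlgClosure L Ω` from `bca_clo`, `w` over `v`
(`exists_over`). `nm_triv`: for `y ∈ L^*` the cochain `cu c (N y)` is a coboundary: `nra_tv` (H89/BRG/NrA.lean; `y` is a polynomial in `H.γ` of degree `< p`: the powers `H.γ ^ i`, `i < p`, are a basis; see `kum_basis` or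
the proof of `kum_norm`, `Algebra.adjoin`, `H.deg`; search for `∑ i ∈ Finset.range p, algebraMap K L (b i) * (H.γ : L) ^ i` in the library).
`W` = the subgroup of all `b` such that `b * (N y)⁻¹` is `Lv v` for some `y ∈ L^*` (`lv_mul`, `lv_inv`, `Nm` multiplicative). `grp` with `f = hs v`, `R` from `lv_fin` (`hs_cong_right`),
`hW`: `lv_hs` (and `hs_symm`; `y = 1`), `hc`: `a` orthogonal to `W`: for `y ∈ L^*` take `y1` from `adj`: `N y1 ∈ W`, so `hs_L w (inc a) y = hs v a (N y1) = 0` for all `y`; so `Lv w (inc a)`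
(`lv_hs` over `L`), `inc_lv`: `a * (c ^ t)⁻¹` is `Lv v`, `hs v a b = hs v (c ^ t) b = t * hs v c b` (`hs_cong`, `hs_pow_left`). So `b ∈ W`: `b = N y * z` with `Lv v z`; on `Dc K P`
`cu c b = cu c (N y)` (`lv_cong`), use `nm_triv`.
-/

set_option autoImplicit false

open scoped NumberField Pointwise
open IsDedekindDomain
open scoped Classical

noncomputable section

namespace H82.SF

open H63.MA H57.PC H57.BRA H89.BRG H57.RQ

variable {K : Type} [Field K] [NumberField K] {Ω : Type} [Field Ω] [Algebra K Ω]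
  [IsAlgClosure K Ω] {p : ℕ} {ζ : K}

private theorem cc_pow (hp : p.Prime) (hζ : IsPrimitiveRoot ζ p) {c : Kˣ} {L : Type} [Field L]
    [NumberField L] [Algebra K L] (H : Kum p K ζ c L) (y : L) :
    ∃ b : ℕ → K, y = ∑ i ∈ Finset.range p, algebraMap K L (b i) * (H.γ : L) ^ i := by
  have hfd : FiniteDimensional K L := kuma_fd hp H
  have h1 : IntermediateField.adjoin K {(H.γ : L)} = ⊤ :=
    kuma_top hp hζ H _ (IntermediateField.mem_adjoin_simple_self K _)
  have h2 : y ∈ Algebra.adjoin K {(H.γ : L)} := by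
    rw [← IntermediateField.adjoin_simple_toSubalgebra_of_isAlgebraic
      (IsAlgebraic.of_finite K (H.γ : L)), h1]
    exact IntermediateField.mem_top
  rw [Algebra.adjoin_singleton_eq_range_aeval] at h2
  obtain ⟨P, hP⟩ := h2
  have hP : Polynomial.aeval (H.γ : L) P = y := hP
  obtain ⟨q, hq⟩ : ∃ q : Polynomial K, q = Polynomial.X ^ p - Polynomial.C (c : K) := ⟨_, rfl⟩
  have hqm : q.Monic := by
    rw [hq]
    exact Polynomial.monic_X_pow_sub_C _ hp.ne_zero
  have hqd : q.natDegree = p := by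
    rw [hq]
    exact Polynomial.natDegree_X_pow_sub_C
  have hqr : Polynomial.aeval (H.γ : L) q = 0 := by
    rw [hq, map_sub, map_pow, Polynomial.aeval_X, Polynomial.aeval_C, H.hγ, sub_self]
  have hq1 : q ≠ 1 := by
    intro h
    rw [h, Polynomial.natDegree_one] at hqd
    exact hp.ne_zero hqd.symm
  refine ⟨fun i => (P %ₘ q).coeff i, ?_⟩
  have h3 : (P %ₘ q).natDegree < p := by
    have h4 := Polynomial.natDegree_modByMonic_lt P hqm hq1
    rwa [hqd] at h4
  rw [← hP, ← Polynomial.aeval_modByMonic_eq_self_of_root hqr,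
    Polynomial.aeval_eq_sum_range' h3]
  exact Finset.sum_congr rfl fun i _ => Algebra.smul_def _ _

omit [NumberField K] [IsAlgClosure K Ω] in
private theorem cc_kl {X : Gal(Ω/K) → Gal(Ω/K) → ZMod p} (h : Tv X) (V : Set Gal(Ω/K)) :
    Kl X V := by
  obtain ⟨l, hl, h1⟩ := h
  exact ⟨l, hl, fun σ _ τ _ => h1 σ τ⟩

theorem nm_triv (hp : p.Prime) (hζ : IsPrimitiveRoot ζ p) {c : Kˣ} {L : Type} [Field L]
    [NumberField L] [Algebra K L] [Algebra L Ω] [IsScalarTower K L Ω] [IsAlgClosure L Ω]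
    (H : Kum p K ζ c L) (y : Lˣ) :
    Tv (fun σ τ : Gal(Ω/K) => cu p ζ c (Nm K L y) σ τ) := by
  obtain ⟨b, hb⟩ := cc_pow hp hζ H (y : L)
  exact nra_tv hp hζ H b y hb

theorem cc (hp : p.Prime) (hp2 : MOne p K) (hζ : IsPrimitiveRoot ζ p) {v : Pl K}
    {P : Ideal (𝓞 Ω)} (hP : P.IsPrime) (hPv : P.under (𝓞 K) = v.asIdeal) {c b : Kˣ}
    (h : hs p ζ Ω v c b = 0) :
    Kl (fun σ τ : Gal(Ω/K) => cu p ζ c b σ τ) (Dc K P : Set Gal(Ω/K)) := by
  by_cases hc : Lv p ζ Ω v c
  · refine kl_congr kl_zero fun σ hσ τ hτ => ?_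
    show (0 : ZMod p) = kk p ζ c σ * kk p ζ b τ
    rw [hc P hP hPv σ hσ, zero_mul]
  · have hcp : ¬ IsPow p c := by
      rintro ⟨y, hy⟩
      apply hc
      rw [← hy]
      exact lv_pow hp hζ v y
    have hM : MOne p K := hp2
    obtain ⟨L, i1, i2, i3, i4, i5, ⟨H⟩⟩ := bca_exists Ω hp hζ hcp
    have hcl : IsAlgClosure L Ω := bca_clo K L Ω
    have hζL : IsPrimitiveRoot (algebraMap K L ζ) p :=
      hζ.map_of_injective (algebraMap K L).injective
    obtain ⟨w, hw⟩ : ∃ w : Pl L, Over w v := H63.MA.exists_over v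
    obtain ⟨W, hW⟩ : ∃ W : Subgroup Kˣ, ∀ x, x ∈ W ↔ ∃ y : Lˣ, Lv p ζ Ω v (x * (Nm K L y)⁻¹) := by
      refine ⟨{ carrier := {x | ∃ y : Lˣ, Lv p ζ Ω v (x * (Nm K L y)⁻¹)}
                mul_mem' := ?_
                one_mem' := ?_
                inv_mem' := ?_ }, fun x => Iff.rfl⟩
      · rintro x x' ⟨y, hy⟩ ⟨y', hy'⟩
        refine ⟨y * y', ?_⟩
        have e : x * x' * (Nm K L (y * y'))⁻¹ = x * (Nm K L y)⁻¹ * (x' * (Nm K L y')⁻¹) := by
          rw [map_mul, mul_inv]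
          exact mul_mul_mul_comm _ _ _ _
        rw [e]
        exact lv_mul hp hζ hy hy'
      · refine ⟨1, ?_⟩
        rw [map_one, inv_one, mul_one]
        exact lv_one hp hζ v
      · rintro x ⟨y, hy⟩
        refine ⟨y⁻¹, ?_⟩
        have e : x⁻¹ * (Nm K L y⁻¹)⁻¹ = (x * (Nm K L y)⁻¹)⁻¹ := by
          rw [map_inv, mul_inv]
        rw [e]
        exact lv_inv hp hζ hy
    have hbW : b ∈ W := by
      obtain ⟨R, hR⟩ := lv_fin (Ω := Ω) hp hM hζ v
      refine grp hp (hs p ζ Ω v) (fun x y z => hs_mul_left hp hp2 hζ v x y z)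
        (fun x y z => hs_mul_right hp hp2 hζ v x y z) (fun x y => hs_symm hp hp2 hζ v x y) R ?_ W ?_ c
        ?_ b h
      · intro x
        obtain ⟨y, hy, hxy⟩ := hR x
        exact ⟨y, hy, fun a => hs_cong_right hp hp2 hζ hxy a⟩
      · intro x hx
        rw [hW]
        refine ⟨1, ?_⟩
        rw [map_one, inv_one, mul_one]
        refine lv_hs hp hp2 hζ fun a => ?_
        rw [hs_symm hp hp2 hζ, hx a, neg_zero]
      · intro a ha
        have h1 : Lv p (algebraMap K L ζ) Ω w (inc K L a) := by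
          refine lv_hs hp (mone_map hp2 L) hζL fun y => ?_
          obtain ⟨y1, -, hy2⟩ := adj hp hp2 hζ H hc hw y
          rw [← hy2 a]
          refine ha _ ((hW _).2 ⟨y1, ?_⟩)
          rw [mul_inv_cancel]
          exact lv_one hp hζ v
        obtain ⟨t, ht⟩ := inc_lv hp hζ H hc hw h1
        refine ⟨t, fun b => ?_⟩
        rw [hs_cong hp hp2 hζ ht b, hs_pow_left hp hp2 hζ]
    obtain ⟨y, hy⟩ := (hW b).1 hbW
    refine kl_congr (cc_kl (nm_triv hp hζ H y) _) fun σ hσ τ hτ => ?_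
    show kk p ζ c σ * kk p ζ (Nm K L y) τ = kk p ζ c σ * kk p ζ b τ
    rw [lv_cong hp hζ hy hP hPv τ hτ]

end H82.SF
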