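import Pool.Agent.H82.SF.Trk
import Pool.Agent.H73.FF.Cor

/-!
# [H82 SF COR] corestriction (helper73)

`L = K(c^(1/p))`, `c` not a `p`-th power at `v`, `P` over `v`; `X` a cocycle on `Γ`. If `X` restricted to `Gal(Ω/L)` is the symbol `(inc a, y)` on `Dc L P`, then the symbol `(a, N y)` is trivial on `Dc K P`.
Proof. `G = Dc K P`, `H = {σ ∈ G | kk c σ = 0}` (the image of `Dc L P`, `dc_lift`, `dc_iff`), normal of index `p`; `δ ∈ G` with `kk c δ = 1`, `g i = δ ^ i.val`, `g i * σ = h i σ * g (i + kk c σ)`.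
For a 2-cochain `f` on `H`: `cor f (σ, τ) = ∑ i, f (h i σ, h (i + kk c σ) τ)`, for a 1-cochain `β` on `H`: `cor β σ = ∑ i, β (h i σ)`; `cor (dβ) = d (cor β)`.
(i) `cor (X restricted to H) = p X - dA = - dA`, `A σ = ∑ i, (X (g i) σ - X (h i σ) (g (i + kk c σ)))` up to the sign. (ii) For `a` additive on `G` and `b` additive on `H`:
`cor (a ∪ b) = a ∪ tr b - dA'`, `tr b σ = ∑ i, b (h i σ)`, `A' σ = ∑ i, a (g i) * b (h i σ)`. (iii) `tr (kk y) = kk (N y)` (`tr_kk`).
From `X - (inc a) ∪ y = dβ` on `H` and (i), (ii), (iii): `a ∪ N y` is the coboundary of an explicit function of finite level (sums of functions `σ ↦ F (g i * σ * (g j)⁻¹)` with `j = i + kk c σ`, of finite level because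
`F`, `kk c` are and the levels can be taken normal; extend `β`, `kk y` from `Gal(Ω/L)` to `Γ` by `bca_lev'`).
-/

set_option autoImplicit false

open scoped NumberField Pointwise
open IsDedekindDomain
open scoped Classical

noncomputable section

namespace H82.SF

open H63.MA H57.PC H57.BRA H89.BRG H57.RQ

variable {K : Type} [Field K] [NumberField K] {Ω : Type} [Field Ω] [Algebra K Ω]
  [IsAlgClosure K Ω] {p : ℕ} {ζ : K} {L : Type} [Field L] [NumberField L] [Algebra K L]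
  [Algebra L Ω] [IsScalarTower K L Ω] [IsAlgClosure L Ω]

theorem cor (hp : p.Prime) (hζ : IsPrimitiveRoot ζ p) {c : Kˣ} (H : Kum p K ζ c L) {v : Pl K}
    (hc : ¬ Lv p ζ Ω v c) {P : Ideal (𝓞 Ω)} (hP : P.IsPrime) (hPv : P.under (𝓞 K) = v.asIdeal)
    {X : Gal(Ω/K) → Gal(Ω/K) → ZMod p} (hX : C2 X) (a : Kˣ) (y : Lˣ)
    (h : Kl (fun σ τ : Gal(Ω/L) => X (rsK K L Ω σ) (rsK K L Ω τ) -
      cu p (algebraMap K L ζ) (inc K L a) y σ τ) (Dc L P : Set Gal(Ω/L))) :
    Kl (fun σ τ : Gal(Ω/K) => cu p ζ a (Nm K L y) σ τ) (Dc K P : Set Gal(Ω/K)) := by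
  have hf : Fact p.Prime := ⟨hp⟩
  have hp0 : NeZero p := ⟨hp.ne_zero⟩
  -- an element of the decomposition group
  have h1 : ¬ ∀ σ ∈ Dc K P, kk p ζ c σ = 0 := fun h0 => hc (lv_of hp hζ hP hPv h0)
  push Not at h1
  obtain ⟨s, hsD, hs⟩ := h1
  have hs1 : kk p ζ c (s ^ ((kk p ζ c s)⁻¹).val) = 1 := by
    have hpow : ∀ n : ℕ, kk p ζ c (s ^ n) = n * kk p ζ c s := by
      intro n
      induction n with
      | zero => rw [pow_zero, kk_one, Nat.cast_zero, zero_mul]
      | succ n ih => rw [pow_succ, kk_mul, ih]; push_cast; ring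
    rw [hpow, ZMod.natCast_zmod_val]
    exact inv_mul_cancel₀ hs
  have h2 := H73.FF.cor_main (L := L) hp hζ H (Dc K P) ((Dc K P).pow_mem hsD _) hs1 hX a y (-1) (by
    have hset : {σ : Gal(Ω/L) | rsK K L Ω σ ∈ Dc K P} = (Dc L P : Set Gal(Ω/L)) := by
      ext σ
      exact dc_iff
    rw [hset]
    refine kl_congr h fun σ _ τ _ => ?_
    ring)
  refine kl_congr (kl_smul (-1) h2) fun σ _ τ _ => ?_
  ring

end H82.SF
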