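import Pool.Agent.H57.RQ.Def
import Pool.Agent.H89.BRG.Dec

/-!
# H82-SF: the symbol at a prime `v ∈ S0` and the classes of decomposition groups (MP_b39724_nt, Malle, all classes, stage 2, chapter (F))

`p` odd, `ζ ∈ K` a primitive `p`-th root of unity, `Γ = Gal(Ω/K)`, `Dc K P` the decomposition group of a prime `P` of `𝓞 Ω`.
* `Ts p ζ x a`: the sum of the tame symbols of order `p` at all primes which do not lie above `p` (`b1` of H57/RQ). By `ro` (H57/RQ/Rec) it is `0` if `x` is a `p`-th power
  locally above `p`; by `nc_b1` it is compatible with norms from Kummer extensions of degree `p`.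
* `Lv p ζ Ω v x`: `x` is a `p`-th power locally at `v` (the Kummer character of `x` vanishes on the decomposition groups over `v`). `Ov`: at all primes above `p` except `v`.
* `At p ζ Ω v x x'`: `x'` is `x` at `v` and a `p`-th power at the other primes above `p`. `lc p ζ Ω v x`: such an `x'`.
* `hs p ζ Ω v x a`: the symbol at `v`: for `v` above `p` it is `Ts (lc x) a`, for the other `v` it is `- B v x a`.

PLAN. (H) `hs` is bilinear, alternating, `hs v x a = 0` for all `a` iff `Lv v x` (`Hsa`, `Hsb`); it vanishes if the cup product is trivial on `Dc` (`Hsb`); it gives the sum of the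
symbols outside a finite set `S0` (`Hsc`). (A) `L = K(c^(1/p))`, `v` not split: `hs_K (a, N y1) = hs_L (a, y)`, `y1` is `y` at `w` (`Adj`). (C) so the norm group is the orthogonal
complement of `c`, and `hs v c b = 0` implies that `cu c b` is trivial on `Dc` (`Grp`, `Cc`). (L) symbols with the same `hs` are equal on `Dc` (`Ln`). (S) every class on `Dc` inflated
from a finite `p`-group is a symbol (`Cor`, `Stp`, `Lbq`, `Sym`). (F) `Fin`: F1, F2.
-/

set_option autoImplicit false

open scoped NumberField Pointwise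
open IsDedekindDomain
open scoped Classical

noncomputable section

namespace H82.SF

open H63.MA H57.PC H57.BRA H89.BRG H57.RQ

variable {K : Type} [Field K] [NumberField K]

/-- the sum of the symbols of order `p` outside `p` -/
def Ts (p : ℕ) (ζ : K) (x a : Kˣ) : ZMod p := ∑ᶠ v, b1 p ζ v x a

/-- `x` is a `p`-th power locally at `v` -/
def Lv (p : ℕ) (ζ : K) (Ω : Type) [Field Ω] [Algebra K Ω] (v : Pl K) (x : Kˣ) : Prop :=
  ∀ P : Ideal (𝓞 Ω), P.IsPrime → P.under (𝓞 K) = v.asIdeal → ∀ σ ∈ Dc K P, kk p ζ x σ = 0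

/-- `x` is a `p`-th power locally at the primes above `p` different from `v` -/
def Ov (p : ℕ) (ζ : K) (Ω : Type) [Field Ω] [Algebra K Ω] (v : Pl K) (x : Kˣ) : Prop :=
  ∀ v' : Pl K, Above p v' → v' ≠ v → Lv p ζ Ω v' x

/-- `x'` is `x` at `v` and a `p`-th power at the other primes above `p` -/
def At (p : ℕ) (ζ : K) (Ω : Type) [Field Ω] [Algebra K Ω] (v : Pl K) (x x' : Kˣ) : Prop :=
  Lv p ζ Ω v (x' * x⁻¹) ∧ Ov p ζ Ω v x'

/-- a choice of `x'` with `At v x x'` -/
def lc (p : ℕ) (ζ : K) (Ω : Type) [Field Ω] [Algebra K Ω] (v : Pl K) (x : Kˣ) : Kˣ :=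
  if h : ∃ x', At p ζ Ω v x x' then h.choose else 1

/-- the symbol at `v` -/
def hs (p : ℕ) (ζ : K) (Ω : Type) [Field Ω] [Algebra K Ω] (v : Pl K) (x a : Kˣ) : ZMod p :=
  if Above p v then Ts p ζ (lc p ζ Ω v x) a else -B p ζ v x a

end H82.SF
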