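import Pool.Agent.H82.SF.Df
import Pool.Agent.H57.BRA.Bca

/-!
# [H82 SF DFD] decomposition fields

* `dfd`: `E` finite and Galois over `K` in `Ω`. There is a number field `F` in `Ω` such that every `σ ∈ Dc K P` fixes `F` and every `σ` fixing `F` is `δ * u`, `δ ∈ Dc K P`, `u` fixing `E`. Proof: `M` = the fixed field of
  `J = Dc K P ⊔ E.fixingSubgroup` (`IntermediateField.fixedField`), `M ≤ E` so it is finite over `K`, `J` is open (contains `E.fixingSubgroup`, open because `E` is finite), so closed and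
  `M.fixingSubgroup = J` (`InfiniteGalois.fixingSubgroup_fixedField` for a closed subgroup); `E.fixingSubgroup` is normal (`E` Galois), so the elements of `J` are products (`Subgroup.mem_sup_of_normal_right`). `F = M` as a
  type, `NumberField M` by `NumberField.of_module_finite K M`.
-/

set_option autoImplicit false

open scoped NumberField Pointwise
open IsDedekindDomain
open scoped Classical

noncomputable section

namespace H82.SF

open H63.MA H57.PC H57.BRA H89.BRG H57.RQ

variable {K : Type} [Field K] [NumberField K] {Ω : Type} [Field Ω] [Algebra K Ω]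
  [IsAlgClosure K Ω] {p : ℕ} {ζ : K}

/-- an automorphism which fixes the image of `F` is `F`-linear -/
private theorem dfd_lin {K L Ω : Type} [Field K] [Field L] [Field Ω] [Algebra K L] [Algebra K Ω]
    [Algebra L Ω] [IsScalarTower K L Ω] (u : Gal(Ω/K))
    (hu : ∀ x : L, u (algebraMap L Ω x) = algebraMap L Ω x) : ∃ u' : Gal(Ω/L), rsK K L Ω u' = u := by
  refine ⟨AlgEquiv.ofRingEquiv (f := (u : Ω ≃+* Ω)) hu, ?_⟩
  ext x
  rw [rsK_apply]
  rfl

theorem dfd (P : Ideal (𝓞 Ω)) (E : IntermediateField K Ω) (hE : FiniteDimensional K E)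
    (hg : IsGalois K E) :
    ∃ (F : Type) (_ : Field F) (_ : NumberField F) (_ : Algebra K F) (_ : Algebra F Ω)
      (_ : IsScalarTower K F Ω), (∀ σ ∈ Dc K P, ∃ σ' : Gal(Ω/F), rsK K F Ω σ' = σ) ∧
      ∀ σ' : Gal(Ω/F), ∃ δ ∈ Dc K P, ∃ u ∈ E.fixingSubgroup, rsK K F Ω σ' = δ * u := by
  have hn : E.fixingSubgroup.Normal := by
    refine ⟨fun u hu σ => ?_⟩
    rw [IntermediateField.mem_fixingSubgroup_iff] at hu ⊢
    intro x hx
    have h1 : Normal K E := hg.to_normal
    have h2 := IntermediateField.normal_iff_forall_map_le.1 h1 ((σ⁻¹ : Gal(Ω/K)) : Ω →ₐ[K] Ω)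
    have h3 : (σ⁻¹ : Gal(Ω/K)) x ∈ E := h2 ⟨x, hx, rfl⟩
    rw [AlgEquiv.mul_apply, AlgEquiv.mul_apply, hu _ h3, ← AlgEquiv.mul_apply, mul_inv_cancel,
      AlgEquiv.one_apply]
  obtain ⟨J, hJ⟩ : ∃ J : Subgroup Gal(Ω/K), J = Dc K P ⊔ E.fixingSubgroup := ⟨_, rfl⟩
  have hEJ : E.fixingSubgroup ≤ J := by rw [hJ]; exact le_sup_right
  have hop : IsOpen (J : Set Gal(Ω/K)) := Subgroup.isOpen_mono hEJ E.fixingSubgroup_isOpen
  have hcl : IsClosed (J : Set Gal(Ω/K)) := Subgroup.isClosed_of_isOpen J hop
  have hfix : (IntermediateField.fixedField J).fixingSubgroup = J :=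
    InfiniteGalois.fixingSubgroup_fixedField (K := Ω) (k := K) ⟨J, hcl⟩
  have hME : IntermediateField.fixedField J ≤ E := by
    have hcE : IsClosed (E.fixingSubgroup : Set Gal(Ω/K)) :=
      Subgroup.isClosed_of_isOpen _ E.fixingSubgroup_isOpen
    have h1 : IntermediateField.fixedField E.fixingSubgroup = E :=
      InfiniteGalois.fixedField_fixingSubgroup E
    rw [← h1]
    intro x hx
    rw [IntermediateField.mem_fixedField_iff] at hx ⊢
    exact fun f hf => hx f (hEJ hf)
  have hfd : FiniteDimensional K (IntermediateField.fixedField J) := by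
    have h1 := IntermediateField.inclusion hME
    exact FiniteDimensional.of_injective (IntermediateField.inclusion hME).toLinearMap
      (IntermediateField.inclusion_injective hME)
  have key : ∀ σ : Gal(Ω/K), (∀ x ∈ IntermediateField.fixedField J, σ x = x) → σ ∈ J := by
    intro σ h
    rw [← hfix, IntermediateField.mem_fixingSubgroup_iff]
    exact h
  have split : ∀ σ ∈ J, ∃ δ ∈ Dc K P, ∃ u ∈ E.fixingSubgroup, σ = δ * u := by
    intro σ h
    rw [hJ, Subgroup.mem_sup_of_normal_right] at h
    obtain ⟨δ, hδ, u, hu, h2⟩ := h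
    exact ⟨δ, hδ, u, hu, h2.symm⟩
  refine ⟨IntermediateField.fixedField J, inferInstance,
    NumberField.of_module_finite K (IntermediateField.fixedField J), inferInstance, inferInstance,
    inferInstance, ?_, ?_⟩
  · intro σ hσ
    refine dfd_lin σ fun x => ?_
    have h1 := (IntermediateField.mem_fixedField_iff J (x : Ω)).1 x.2
    exact h1 σ (by rw [hJ]; exact Subgroup.mem_sup_left hσ)
  · intro σ'
    refine split _ (key _ ?_)
    intro x hx
    exact σ'.commutes ⟨x, hx⟩

end H82.SF
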