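import Pool.Agent.H82.SF.Hsa

/-!
# [H82 SF HSC] the sum of the symbols outside a finite set

`S0` contains the primes above `p`, `v ∈ S0`, `x` is a `p`-th power at the other primes of `S0`. Then the sum of the symbols outside `S0` is `hs v x a`.
Proof. `Ts x a = (sum outside S0) + ∑_{w ∈ S0, w not above p} B w x a` (`finsum` with finite support `b1_fin`; `b1 = 0` above `p`). For `w ∈ S0`, `w ≠ v`, not above `p`: `B w x a = 0` (`spl_lv`).
If `v` is above `p`: `hs_ts`. If `v` is not above `p`: `Ts x a = 0` by `ts_lv` (`x` is `Lv` at all primes above `p`), so the sum is `- B v x a = hs v x a`.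
-/

set_option autoImplicit false

open scoped NumberField Pointwise
open IsDedekindDomain
open scoped Classical

noncomputable section

namespace H82.SF

open H63.MA H57.PC H57.BRA H89.BRG H57.RQ

variable {K : Type} [Field K] [NumberField K] {Ω : Type} [Field Ω] [Algebra K Ω]
  [IsAlgClosure K Ω] {p : ℕ} {ζ : K}

theorem hs_S (hp : p.Prime) (hp2 : MOne p K) (hζ : IsPrimitiveRoot ζ p) {S0 : Finset (Pl K)}
    (hS : ∀ v, Above p v → v ∈ S0) {v : Pl K} (hv : v ∈ S0) {x : Kˣ}
    (hx : ∀ v' ∈ S0, v' ≠ v → Lv p ζ Ω v' x) (a : Kˣ) :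
    (∑ᶠ w, if w ∈ S0 then 0 else b1 p ζ w x a) = hs p ζ Ω v x a := by
  have hfin := b1_fin (K := K) hp hζ x a
  obtain ⟨f, hf⟩ : ∃ f : Pl K → ZMod p, ∀ w, f w = b1 p ζ w x a := ⟨_, fun _ => rfl⟩
  have hab : ∀ w, Above p w → f w = 0 := fun w hw => by
    rw [hf]
    unfold b1
    rw [if_pos hw]
  have hnab : ∀ w, ¬ Above p w → f w = B p ζ w x a := fun w hw => by
    rw [hf]
    unfold b1
    rw [if_neg hw]
  obtain ⟨F, hF⟩ : ∃ F : Finset (Pl K), F = hfin.toFinset ∪ S0 := ⟨_, rfl⟩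
  have h1 : Ts p ζ x a = ∑ w ∈ F, f w := by
    unfold Ts
    rw [finsum_eq_sum_of_support_subset (s := F) _ (fun w hw => ?_)]
    · exact Finset.sum_congr rfl fun w _ => (hf w).symm
    · rw [hF, Finset.coe_union]
      exact Or.inl ((Set.Finite.mem_toFinset hfin).2 hw)
  have h2 : (∑ᶠ w, if w ∈ S0 then 0 else b1 p ζ w x a) = ∑ w ∈ F, if w ∈ S0 then 0 else f w := by
    rw [finsum_eq_sum_of_support_subset (s := F) _ (fun w hw => ?_)]
    · exact Finset.sum_congr rfl fun w _ => by rw [hf]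
    · rw [hF, Finset.coe_union]
      refine Or.inl ((Set.Finite.mem_toFinset hfin).2 fun h0 => hw ?_)
      beta_reduce
      rw [h0, ite_self]
  have h3 : ∑ w ∈ F, f w = (∑ w ∈ F, if w ∈ S0 then 0 else f w) + ∑ w ∈ S0, f w := by
    have e1 : ∑ w ∈ S0, f w = ∑ w ∈ F, if w ∈ S0 then f w else 0 := by
      rw [Finset.sum_ite_mem, hF, Finset.union_inter_cancel_right]
    rw [e1, ← Finset.sum_add_distrib]
    refine Finset.sum_congr rfl fun w _ => ?_
    split_ifs
    · rw [zero_add]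
    · rw [add_zero]
  have h4 : ∑ w ∈ S0, f w = f v := by
    refine Finset.sum_eq_single_of_mem v hv fun w hw hne => ?_
    by_cases hwa : Above p w
    · exact hab w hwa
    · rw [hnab w hwa]
      exact spl_lv hp hζ hwa (hx w hw hne) a
  have h5 : (∑ᶠ w, if w ∈ S0 then 0 else b1 p ζ w x a) = Ts p ζ x a - f v := by
    rw [h1, h3, h4, h2]
    ring
  rw [h5]
  by_cases hva : Above p v
  · rw [hab v hva, sub_zero, hs_ts hp hp2 hζ hva (fun v' hv' hne => hx v' (hS v' hv') hne) a]
  · have h6 : Ts p ζ x a = 0 := by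
      refine ts_lv (Ω := Ω) hp hp2 hζ fun v' hv' => Or.inl (hx v' (hS v' hv') ?_)
      rintro rfl
      exact hva hv'
    rw [h6, hnab v hva, zero_sub]
    unfold hs
    rw [if_neg hva]

end H82.SF
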