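import Pool.Agent.H82.SF.Sym
import Pool.Agent.H82.SF.Hsc
import Pool.Agent.H24.RK.Brf

/-!
# [H82 SF FIN] theorem (F)

`D` (only `S0` with the primes above `p` and the `pi v` are used), `R` a finite `p`-group, `n = pb e ρ`.
* `f1`: for `v ∈ S0` there are `x, b ∈ K^*`, both `p`-th powers on `dec (Q.P v')` for the other `v' ∈ S0`, with `n - cu x b` trivial on `dec (Q.P v)`. Proof: `(Dc K P).map ρ` is a `p`-group (`IsPGroup`), `sym`
  gives `x0, b0`; `at_exS` for `S0` gives `x` with `Lv v (x * x0⁻¹)`, `Lv v' x`, in the same way `b`. On `Dc K P`: `kk x = kk x0` (`lv_cong`). `dc_dec`.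
* `tsx x b`: the functional of AC2 on `cu x b`: `∑ᶠ w, if w ∈ S0 then 0 else cu x b (t w) (F w) - cu x b (F w) (t w)`. `tsx_hs`: it is `- hs v x b`: for `w ∉ S0`: `kk x (t w) = ord w x`
  (`kk_t`), `kk x (F w) = LL w x` (`Fr.kf`), so the term is `ord w x * LL w b - LL w x * ord w b = - B w x b` (`B_eq`-type formula: `B w x b = ord w b * LL w x - ord w x * LL w b`, see `scal_det` in H63/MA/Scal.lean), `= - b1 w x b`
  because `w` is not above `p` (`D.above`); `hs_S`.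
* `f2`: if for every `v ∈ S0` and all `x, b` as in `f1` the number `tsx x b` is `0`, and `n` is trivial outside `S0` (`iv = 0`, inertia of order `p ^ k`), then `Tv n`. Proof: for `v ∈ S0`, `x, b` from `f1`:
  `hs v x b = 0` (`tsx_hs`), so `cu x b` is trivial on `Dc` (`cc`), so `n` is; `brg1K` (H24/RK/Brf.lean).
-/

set_option autoImplicit false

open scoped NumberField Pointwise
open IsDedekindDomain
open scoped Classical

noncomputable section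

namespace H82.SF

open H63.MA H38.BB H38.BG H57.PC H57.BRA H89.BRG H57.RQ H24.RK

variable {K : Type} [Field K] [NumberField K] {Ω : Type} [Field Ω] [Algebra K Ω]
  [IsAlgClosure K Ω] {p : ℕ} {ζ : K}

/-- the functional on the cup product of `x` and `b` -/
def tsx {D : RD0 K p ζ} {L : LDs D Ω} (Fr : FR L) (x b : Kˣ) : ZMod p :=
  ∑ᶠ w, if w ∈ D.S0 then 0 else
    cu p ζ x b (L.t w) (Fr.F w) - cu p ζ x b (Fr.F w) (L.t w)

theorem f1 (hp : p.Prime) (hp2 : MOne p K) (hζ : IsPrimitiveRoot ζ p) {D : RD0 K p ζ}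
    (Q : DP K Ω) {R : Type} [Group R] [Finite R] (hR : IsPGroup p R) {e : R → R → ZMod p}
    (he : Coc p e) {ρ : Gal(Ω/K) →* R} (hρ : H38.ML.FT ρ) {v : Pl K} (hv : v ∈ D.S0) :
    ∃ x b : Kˣ, (∀ v' ∈ D.S0, v' ≠ v → ∀ σ ∈ dec (K := K) (Q.P v'),
        kk p ζ x σ = 0 ∧ kk p ζ b σ = 0) ∧
      Kl (fun σ τ : Gal(Ω/K) => pb e ρ σ τ - cu p ζ x b σ τ)
        (dec (K := K) (Q.P v) : Set Gal(Ω/K)) := by
  have hpf : Fact p.Prime := ⟨hp⟩
  obtain ⟨n, hn⟩ := IsPGroup.iff_card.1 (hR.to_subgroup ((Dc K (Q.P v)).map ρ))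
  obtain ⟨x0, b0, h0⟩ := sym hp he n K hp2 ζ hζ Ω ρ hρ v (Q.P v) (Q.prime v) (Q.under v) hn
  obtain ⟨x, hx1, hx2⟩ := at_exS (Ω := Ω) hp hζ D.S0 v x0
  obtain ⟨b, hb1, hb2⟩ := at_exS (Ω := Ω) hp hζ D.S0 v b0
  refine ⟨x, b, fun v' hv' hne σ hσ => ?_, ?_⟩
  · have h1 := (dc_dec (Q.P v') σ).2 hσ
    exact ⟨hx2 v' hv' hne (Q.P v') (Q.prime v') (Q.under v') σ h1,
      hb2 v' hv' hne (Q.P v') (Q.prime v') (Q.under v') σ h1⟩
  · refine kl_mono (kl_congr h0 fun σ hσ τ hτ => ?_) (fun σ hσ => (dc_dec (Q.P v) σ).2 hσ)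
    have h1 := lv_cong hp hζ hx1 (Q.prime v) (Q.under v) σ hσ
    have h2 := lv_cong hp hζ hb1 (Q.prime v) (Q.under v) τ hτ
    simp only [cu]
    rw [h1, h2]

theorem tsx_hs (hp : p.Prime) (hp2 : MOne p K) (hζ : IsPrimitiveRoot ζ p) {D : RD0 K p ζ}
    {L : LDs D Ω} (Q : DP K Ω) (Fr : FR L) {v : Pl K} (hv : v ∈ D.S0) {x : Kˣ}
    (hx : ∀ v' ∈ D.S0, v' ≠ v → ∀ σ ∈ dec (K := K) (Q.P v'), kk p ζ x σ = 0) (b : Kˣ) :
    tsx Fr x b = -hs p ζ Ω v x b := by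
  have h1 := hs_S (Ω := Ω) hp hp2 hζ D.above hv (x := x) (fun v' hv' hne =>
    lv_of hp hζ (Q.prime v') (Q.under v') fun σ hσ => hx v' hv' hne σ ((dc_dec _ σ).1 hσ)) b
  rw [← h1, ← finsum_neg_distrib]
  unfold tsx
  refine finsum_congr fun w => ?_
  by_cases hw : w ∈ D.S0
  · rw [if_pos hw, if_pos hw, neg_zero]
  · rw [if_neg hw, if_neg hw]
    have ha : ¬ Above p w := fun h => hw (D.above w h)
    have ht : L.t w = (L.ld w hw).t := by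
      unfold LDs.t
      exact dif_pos hw
    have k1 : ∀ a : Kˣ, kk p ζ a (L.t w) = ord w a := fun a => by
      rw [ht]
      exact ld_kk_t hp hζ ha (D.pi_self w hw) (L.ld w hw) a
    unfold b1
    rw [if_neg ha, B_eq hp hζ D hw x b]
    simp only [cu]
    rw [k1, k1, Fr.kf w hw, Fr.kf w hw]
    ring

theorem f2 {k : ℕ} (hk : 0 < k) (hp : p.Prime) (hp2 : MOne p K) (hζ : IsPrimitiveRoot ζ p)
    (hz : Zn p (k + 1) K) {D : RD0 K p ζ} {L : LDs D Ω} (Q : DP K Ω) (Fr : FR L) {R : Type}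
    [Group R] [Finite R] (hR : IsPGroup p R) {e : R → R → ZMod p} (he : Coc p e)
    {ρ : Gal(Ω/K) →* R} (hρ : H38.ML.FT ρ)
    (htm : ∀ v, v ∉ D.S0 → ∀ τ ∈ inr L v, ρ τ ^ (p ^ k) = 1)
    (hiv : ∀ v, v ∉ D.S0 → iv e (ρ (Fr.F v)) (ρ (L.t v)) = 0)
    (h0 : ∀ v ∈ D.S0, ∀ x b : Kˣ, (∀ v' ∈ D.S0, v' ≠ v → ∀ σ ∈ dec (K := K) (Q.P v'),
        kk p ζ x σ = 0 ∧ kk p ζ b σ = 0) →
      Kl (fun σ τ : Gal(Ω/K) => pb e ρ σ τ - cu p ζ x b σ τ)
        (dec (K := K) (Q.P v) : Set Gal(Ω/K)) → tsx Fr x b = 0) : Tv (pb e ρ) := by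
  refine brg1K hk hp (hp2) hζ hz Q Fr he hρ (fun v hv => ?_) htm hiv
  obtain ⟨x, b, h1, h2⟩ := f1 hp hp2 hζ Q hR he hρ hv
  have h3 := h0 v hv x b h1 h2
  rw [tsx_hs hp hp2 hζ Q Fr hv (fun v' hv' hne σ hσ => (h1 v' hv' hne σ hσ).1) b, neg_eq_zero] at h3
  have h4 := cc hp hp2 hζ (Q.prime v) (Q.under v) h3
  have h5 := kl_add h2 (kl_mono h4 fun σ hσ => (dc_dec (Q.P v) σ).2 hσ)
  exact kl_congr h5 fun σ _ τ _ => sub_add_cancel _ _

end H82.SF
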