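import Pool.Agent.H82.SF.Lva
import Pool.Agent.H51.CUB.DUB

/-!
# [H82 SF LVB] local `p`-th powers away from `p`; finitely many classes

* `spl_lv`: `v` not above `p`, `Lv v x` implies `Spl p ζ v x`. Proof: `π` with `ord v π = 1` (`exists_unif`), `L` from `exists_LD Ω hp hζ hv hπ` (H63/MA); `L.t` is in the inertia group, so in `Dc K L.P`,
  and `kk x L.t = ord v x` (see the proof of `kk_t`; search `act` / `glg` in H63/MA/GLoc, GLg), so `p ∣ ord v x`; a Frobenius `F` at `L.P` (H63/MA/GFrob, or `frob_univK` in H24/RK, `IsFr` in H57/BRA/Def: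
  `∀ y, F • y - y ^ nm v ∈ L.P`, so `F ∈ Dc K L.P`) has `kk x F = lgv p ζ v π x`, so `lg v (x * π ^ (-ord)) = 0`; so `B v x a = 0`: `x = π ^ (p m) * u` with `ord v u = 0`, `lg v u = 0`, `B_mul_left`,
  `B_zpow_left`, `B_unit` (H63/MA/SymA; compare `scal_det` in H63/MA/Scal.lean). An existing statement may be near: `spl_iff`, `glg_triv`, `locK_one` (H24/RK/Loc.lean).
* `lv_fin`: finitely many classes modulo `Lv v`: `dub` (H51/CUB/DUB.lean) for `S0 = {v} ∪ {above p}` (`finite_above`), with `lv_locP`, `lv_spl` (`PS` in H63/MA/RDef).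
-/



set_option autoImplicit false

open scoped NumberField Pointwise
open IsDedekindDomain
open scoped Classical

noncomputable section

namespace H82.SF

open H63.MA H57.PC H57.BRA H89.BRG H57.RQ

variable {K : Type} [Field K] [NumberField K] {Ω : Type} [Field Ω] [Algebra K Ω]
  [IsAlgClosure K Ω] {p : ℕ} {ζ : K}

theorem spl_lv (hp : p.Prime) (hζ : IsPrimitiveRoot ζ p) {v : Pl K} (hv : ¬ Above p v) {x : Kˣ}
    (h : Lv p ζ Ω v x) : Spl p ζ v x := by
  obtain ⟨π, hπ⟩ := exists_unif v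
  obtain ⟨L⟩ := exists_LD Ω hp hζ hv hπ
  obtain ⟨F, hF⟩ := gfrob_ex L.P L.prime L.under
  have hprime := L.prime
  have htD : L.t ∈ Dc K L.P := Ideal.inertia_le_stabilizer L.P L.ht
  have hnm : 0 < nm v := lt_trans Nat.zero_lt_one (one_lt_nm v)
  have hiff : ∀ y : 𝓞 Ω, F • y ∈ L.P ↔ y ∈ L.P := by
    intro y
    constructor
    · intro hy
      have h1 : y ^ nm v ∈ L.P := by
        have h2 := L.P.sub_mem hy (hF y)
        rwa [sub_sub_cancel] at h2
      exact hprime.mem_of_pow_mem _ h1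
    · intro hy
      have h1 := L.P.add_mem (hF y) (L.P.pow_mem_of_mem hy (nm v) hnm)
      rwa [sub_add_cancel] at h1
  have hFD : F ∈ Dc K L.P := by
    change F • L.P = L.P
    ext y
    rw [Ideal.mem_pointwise_smul_iff_inv_smul_mem, ← hiff (F⁻¹ • y), smul_inv_smul]
  have h1 : kk p ζ x L.t = 0 := h L.P L.prime L.under L.t htD
  rw [ld_kk_t hp hζ hv hπ L x] at h1
  have hd : (p : ℤ) ∣ ord v x := (ZMod.intCast_zmod_eq_zero_iff_dvd _ _).1 h1
  have h2 : kk p ζ x F = 0 := h L.P L.prime L.under F hFD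
  have hou : ord v (x * π ^ (-ord v x)) = 0 := by
    rw [ord_mul, ord_zpow, hπ]
    ring
  have h3 := gfrob_unit hp hζ hv L.P L.prime L.under F hF (x * π ^ (-ord v x)) hou
  rw [kk_mul_arg hp hζ, kk_zpow_arg hp hζ, h2, Int.cast_neg, h1, neg_zero, zero_mul,
    add_zero] at h3
  intro y
  rw [B_unram hp hζ hv hd hπ y]
  have h4 : B p ζ v x π = 0 := by
    rw [B, hπ, zpow_one, ← zpow_neg, ← h3]
  rw [h4, mul_zero]

/-- finitely many classes -/
theorem lv_fin (hp : p.Prime) (hp2 : MOne p K) (hζ : IsPrimitiveRoot ζ p) (v : Pl K) :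
    ∃ R : Finset Kˣ, ∀ x : Kˣ, ∃ y ∈ R, Lv p ζ Ω v (x * y⁻¹) := by
  obtain ⟨R, _, hR⟩ := H51.CUB.dub hp hp2 hζ
    (insert v (finite_above (K := K) hp.ne_zero).toFinset) (fun w hw =>
      Finset.mem_insert_of_mem ((Set.Finite.mem_toFinset _).2 hw))
  refine ⟨R, fun x => ?_⟩
  obtain ⟨y, hy, h1, h2⟩ := hR x
  refine ⟨y, hy, ?_⟩
  by_cases hv : Above p v
  · exact lv_locP hp hζ hv (h1 v hv)
  · exact lv_spl hp hζ hv (h2 v (Finset.mem_insert_self _ _) hv)

end H82.SF
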