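import Pool.Agent.H82.SF.Orth
import Pool.Agent.H82.SF.Lvb
import Pool.Agent.H82.SF.Lvc

/-!
# [H82 SF HSA] the symbol at `v`: bilinear and alternating

* `hs_ts`: `v` above `p`, `x` a `p`-th power at the other primes above `p`: `hs v x a = Ts x a`. Proof: `x * (lc x)⁻¹` is `Lv` at all primes above `p` (`lc_at`, `lv_mul`, `lv_inv`),
  so `Ts (x * (lc x)⁻¹) a = 0` (`ts_lv`), `ts_mul_left`.
* `hs_mul_left`: above `p`: `lc (x y) * (lc x * lc y)⁻¹` is `Lv` at all primes above `p`. `hs_mul_right`: `ts_mul_right`. Not above `p`: `B_mul_left`, `B_mul_right` (H63/MA/SymA).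
* `hs_self`: above `p`: `Ts (lc x) x = Ts (lc x) (lc x) + Ts (lc x) (x * (lc x)⁻¹) = 0` by `ts_self` and `ts_lv` (`Lv v (x * (lc x)⁻¹)`, `Lv v' (lc x)` for the other `v'`). Not above `p`: `B_self`.
* `hs_symm` from `hs_self` for `x * a` and bilinearity. `hs_pow_left` by induction.
-/

set_option autoImplicit false

open scoped NumberField Pointwise
open IsDedekindDomain
open scoped Classical

noncomputable section

namespace H82.SF

open H63.MA H57.PC H57.BRA H89.BRG H57.RQ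

variable {K : Type} [Field K] [NumberField K] {Ω : Type} [Field Ω] [Algebra K Ω]
  [IsAlgClosure K Ω] {p : ℕ} {ζ : K}

/-- two choices -/
private theorem ts_at (hp : p.Prime) (hp2 : MOne p K) (hζ : IsPrimitiveRoot ζ p) {v : Pl K}
    {x y z : Kˣ} (hy : At p ζ Ω v x y) (hz : At p ζ Ω v x z) (a : Kˣ) :
    Ts p ζ y a = Ts p ζ z a := by
  have h1 : ∀ v' : Pl K, Above p v' → Lv p ζ Ω v' (y * z⁻¹) := by
    intro v' hv'
    by_cases h : v' = v
    · subst h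
      have h2 := lv_mul hp hζ hy.1 (lv_inv hp hζ hz.1)
      have h3 : y * x⁻¹ * (z * x⁻¹)⁻¹ = y * z⁻¹ := by group
      rw [h3] at h2
      exact h2
    · exact lv_mul hp hζ (hy.2 v' hv' h) (lv_inv hp hζ (hz.2 v' hv' h))
  have h2 : Ts p ζ (y * z⁻¹) a = 0 := ts_lv hp hp2 hζ fun v' hv' => Or.inl (h1 v' hv')
  have h3 := ts_mul_left (p := p) (ζ := ζ) hp hζ (y * z⁻¹) z a
  rw [h2, zero_add, inv_mul_cancel_right] at h3
  exact h3

omit [IsAlgClosure K Ω] in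
private theorem hs_pos {v : Pl K} (hv : Above p v) (x a : Kˣ) :
    hs p ζ Ω v x a = Ts p ζ (lc p ζ Ω v x) a := by
  unfold hs
  rw [if_pos hv]

omit [IsAlgClosure K Ω] in
private theorem hs_neg {v : Pl K} (hv : ¬ Above p v) (x a : Kˣ) :
    hs p ζ Ω v x a = -B p ζ v x a := by
  unfold hs
  rw [if_neg hv]

theorem hs_ts (hp : p.Prime) (hp2 : MOne p K) (hζ : IsPrimitiveRoot ζ p) {v : Pl K}
    (hv : Above p v) {x : Kˣ} (hx : Ov p ζ Ω v x) (a : Kˣ) : hs p ζ Ω v x a = Ts p ζ x a := by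
  rw [hs_pos hv]
  refine ts_at hp hp2 hζ (lc_at hp hζ v x) ⟨?_, hx⟩ a
  rw [mul_inv_cancel]
  exact lv_one hp hζ v

theorem hs_mul_left (hp : p.Prime) (hp2 : MOne p K) (hζ : IsPrimitiveRoot ζ p) (v : Pl K)
    (x y a : Kˣ) : hs p ζ Ω v (x * y) a = hs p ζ Ω v x a + hs p ζ Ω v y a := by
  by_cases hv : Above p v
  · rw [hs_pos hv, hs_pos hv, hs_pos hv, ← ts_mul_left hp hζ]
    have hx := lc_at (Ω := Ω) hp hζ v x
    have hy := lc_at (Ω := Ω) hp hζ v y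
    refine ts_at hp hp2 hζ (lc_at (Ω := Ω) hp hζ v (x * y)) ⟨?_, fun v' h1 h2 =>
      lv_mul hp hζ (hx.2 v' h1 h2) (hy.2 v' h1 h2)⟩ a
    have h := lv_mul hp hζ hx.1 hy.1
    rw [mul_mul_mul_comm, ← mul_inv] at h
    exact h
  · rw [hs_neg hv, hs_neg hv, hs_neg hv, B_mul_left hp hζ hv, neg_add]

theorem hs_mul_right (hp : p.Prime) (hp2 : MOne p K) (hζ : IsPrimitiveRoot ζ p) (v : Pl K)
    (x a b : Kˣ) : hs p ζ Ω v x (a * b) = hs p ζ Ω v x a + hs p ζ Ω v x b := by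
  by_cases hv : Above p v
  · rw [hs_pos hv, hs_pos hv, hs_pos hv, ts_mul_right hp hζ]
  · rw [hs_neg hv, hs_neg hv, hs_neg hv, B_mul_right hp hζ hv, neg_add]

theorem hs_self (hp : p.Prime) (hp2 : MOne p K) (hζ : IsPrimitiveRoot ζ p) (v : Pl K) (x : Kˣ) :
    hs p ζ Ω v x x = 0 := by
  by_cases hv : Above p v
  · rw [hs_pos hv]
    have hx := lc_at (Ω := Ω) hp hζ v x
    have h1 : Ts p ζ (lc p ζ Ω v x) (x * (lc p ζ Ω v x)⁻¹) = 0 := by
      refine ts_lv (Ω := Ω) hp hp2 hζ fun v' hv' => ?_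
      by_cases h : v' = v
      · subst h
        right
        have h2 := lv_inv hp hζ hx.1
        have h3 : (lc p ζ Ω v' x * x⁻¹)⁻¹ = x * (lc p ζ Ω v' x)⁻¹ := by group
        rw [h3] at h2
        exact h2
      · exact Or.inl (hx.2 v' hv' h)
    have h2 := ts_mul_right hp hζ (lc p ζ Ω v x) (x * (lc p ζ Ω v x)⁻¹) (lc p ζ Ω v x)
    rw [h1, ts_self hp hζ, add_zero, inv_mul_cancel_right] at h2
    exact h2
  · rw [hs_neg hv, B_self hp hζ hv, neg_zero]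

theorem hs_symm (hp : p.Prime) (hp2 : MOne p K) (hζ : IsPrimitiveRoot ζ p) (v : Pl K) (x a : Kˣ) :
    hs p ζ Ω v x a = -hs p ζ Ω v a x := by
  have h := hs_self (Ω := Ω) hp hp2 hζ v (x * a)
  rw [hs_mul_left hp hp2 hζ, hs_mul_right hp hp2 hζ, hs_mul_right hp hp2 hζ,
    hs_self hp hp2 hζ, hs_self hp hp2 hζ, zero_add, add_zero] at h
  exact eq_neg_of_add_eq_zero_left h

theorem hs_pow_left (hp : p.Prime) (hp2 : MOne p K) (hζ : IsPrimitiveRoot ζ p) (v : Pl K)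
    (x a : Kˣ) (n : ℕ) : hs p ζ Ω v (x ^ n) a = n * hs p ζ Ω v x a := by
  induction n with
  | zero =>
    have h := hs_mul_left (Ω := Ω) hp hp2 hζ v 1 1 a
    rw [one_mul] at h
    rw [pow_zero, Nat.cast_zero, zero_mul]
    exact left_eq_add.1 h
  | succ n ih =>
    rw [pow_succ, hs_mul_left hp hp2 hζ, ih, Nat.cast_succ, add_mul, one_mul]

theorem hs_pow_right (hp : p.Prime) (hp2 : MOne p K) (hζ : IsPrimitiveRoot ζ p) (v : Pl K)
    (x a : Kˣ) (n : ℕ) : hs p ζ Ω v x (a ^ n) = n * hs p ζ Ω v x a := by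
  rw [hs_symm hp hp2 hζ, hs_pow_left hp hp2 hζ, hs_symm hp hp2 hζ v x a, mul_neg]

end H82.SF
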