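import Pool.Agent.H82.SF.Df

/-!
# [H82 SF KLA] coboundaries on subsets, descent, decomposition groups

* `kl_mono`, `kl_zero`, `kl_add`, `kl_sub`: levels by `gtriv_lev` (H63/MA/GTriv) or as in `hg_tvkl` (H24/RK/Has.lean).
* `kl_dn`: descent from `F`: `bca_lev'` (H57/BRA/Bca.lean) extends the function.
* `kl_up`: `Kl X V` implies the same over `F` on the preimage: `bca_lev`.
* `dc_iff`: `rsK σ ∈ Dc K P ↔ σ ∈ Dc F P` (`dc_rs` is one direction; the other is the same computation, `bcp_smul`).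
* `dc_lift`: `L` a Kummer extension with root of `c`; `σ ∈ Dc K P` with `kk c σ = 0` comes from `Dc L P` (`bca_range`, `dc_iff`).
-/

set_option autoImplicit false

open scoped NumberField Pointwise
open IsDedekindDomain
open scoped Classical

noncomputable section

namespace H82.SF

open H63.MA H57.PC H57.BRA H89.BRG H57.RQ

variable {K : Type} [Field K] [NumberField K] {Ω : Type} [Field Ω] [Algebra K Ω]
  {p : ℕ} {ζ : K}

private theorem kla_lev2 {K : Type} [Field K] {Ω : Type} [Field Ω] [Algebra K Ω] {X Y Z : Type}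
    {f : Gal(Ω/K) → X} {g : Gal(Ω/K) → Y} (hf : Lev f) (hg : Lev g) (F : X → Y → Z) :
    Lev (fun σ => F (f σ) (g σ)) := by
  obtain ⟨E, hE, h1⟩ := hf
  obtain ⟨E', hE', h2⟩ := hg
  refine ⟨E ⊔ E', IntermediateField.finiteDimensional_sup E E', fun σ u hu => ?_⟩
  have e1 : u ∈ E.fixingSubgroup := IntermediateField.fixingSubgroup_antitone le_sup_left hu
  have e2 : u ∈ E'.fixingSubgroup := IntermediateField.fixingSubgroup_antitone le_sup_right hu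
  simp only [h1 σ u e1, h2 σ u e2]

omit [NumberField K] in
theorem kl_mono {X : Gal(Ω/K) → Gal(Ω/K) → ZMod p} {V W : Set Gal(Ω/K)} (h : Kl X V)
    (hW : W ⊆ V) : Kl X W := by
  obtain ⟨l, hl, h1⟩ := h
  exact ⟨l, hl, fun σ hσ τ hτ => h1 σ (hW hσ) τ (hW hτ)⟩

omit [NumberField K] in
/-- equality on the set is enough -/
theorem kl_congr {X Y : Gal(Ω/K) → Gal(Ω/K) → ZMod p} {V : Set Gal(Ω/K)} (h : Kl X V)
    (hXY : ∀ σ ∈ V, ∀ τ ∈ V, X σ τ = Y σ τ) : Kl Y V := by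
  obtain ⟨l, hl, h1⟩ := h
  refine ⟨l, hl, fun σ hσ τ hτ => ?_⟩
  rw [h1 σ hσ τ hτ, hXY σ hσ τ hτ]

omit [NumberField K] in
theorem kl_zero {V : Set Gal(Ω/K)} :
    Kl (fun _ _ : Gal(Ω/K) => (0 : ZMod p)) V := by
  refine ⟨fun _ => 0, ⟨⊥, inferInstance, fun _ _ _ => rfl⟩, fun σ _ τ _ => ?_⟩
  ring

omit [NumberField K] in
theorem kl_add {X Y : Gal(Ω/K) → Gal(Ω/K) → ZMod p} {V : Set Gal(Ω/K)} (h : Kl X V)
    (h' : Kl Y V) : Kl (fun σ τ => X σ τ + Y σ τ) V := by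
  obtain ⟨l, hl, h1⟩ := h
  obtain ⟨m, hm, h2⟩ := h'
  refine ⟨fun σ => l σ + m σ, kla_lev2 hl hm (fun x y => x + y), fun σ hσ τ hτ => ?_⟩
  simp only [h1 σ hσ τ hτ, h2 σ hσ τ hτ]
  ring

omit [NumberField K] in
theorem kl_sub {X Y : Gal(Ω/K) → Gal(Ω/K) → ZMod p} {V : Set Gal(Ω/K)} (h : Kl X V)
    (h' : Kl Y V) : Kl (fun σ τ => X σ τ - Y σ τ) V := by
  obtain ⟨l, hl, h1⟩ := h
  obtain ⟨m, hm, h2⟩ := h'
  refine ⟨fun σ => l σ - m σ, kla_lev2 hl hm (fun x y => x - y), fun σ hσ τ hτ => ?_⟩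
  simp only [h1 σ hσ τ hτ, h2 σ hσ τ hτ]
  ring

omit [NumberField K] in
theorem kl_smul (n : ZMod p) {X : Gal(Ω/K) → Gal(Ω/K) → ZMod p} {V : Set Gal(Ω/K)} (h : Kl X V) :
    Kl (fun σ τ => n * X σ τ) V := by
  obtain ⟨l, hl, h1⟩ := h
  refine ⟨fun σ => n * l σ, kla_lev2 hl hl (fun x _ => n * x), fun σ hσ τ hτ => ?_⟩
  simp only [h1 σ hσ τ hτ]
  ring

section up

variable {F : Type} [Field F] [NumberField F] [Algebra K F] [Algebra F Ω] [IsScalarTower K F Ω]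
  [IsAlgClosure K Ω] [IsAlgClosure F Ω]

theorem kl_dn {X : Gal(Ω/K) → Gal(Ω/K) → ZMod p} {V : Set Gal(Ω/K)}
    (hV : ∀ σ ∈ V, ∃ σ' : Gal(Ω/F), rsK K F Ω σ' = σ)
    (h : Kl (fun σ τ : Gal(Ω/F) => X (rsK K F Ω σ) (rsK K F Ω τ))
      {σ : Gal(Ω/F) | rsK K F Ω σ ∈ V}) : Kl X V := by
  obtain ⟨l', hl', h1⟩ := h
  obtain ⟨l, hl, h2⟩ := bca_lev' (K := K) hl'
  refine ⟨l, hl, fun σ hσ τ hτ => ?_⟩
  obtain ⟨σ', rfl⟩ := hV σ hσ
  obtain ⟨τ', rfl⟩ := hV τ hτ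
  rw [← map_mul, h2, h2, h2]
  exact h1 σ' hσ τ' hτ

theorem kl_up {X : Gal(Ω/K) → Gal(Ω/K) → ZMod p} {V : Set Gal(Ω/K)} (h : Kl X V) :
    Kl (fun σ τ : Gal(Ω/F) => X (rsK K F Ω σ) (rsK K F Ω τ))
      {σ : Gal(Ω/F) | rsK K F Ω σ ∈ V} := by
  obtain ⟨l, hl, h1⟩ := h
  refine ⟨fun σ => l (rsK K F Ω σ), bca_lev hl, fun σ hσ τ hτ => ?_⟩
  have h2 := h1 _ hσ _ hτ
  rw [← map_mul] at h2
  exact h2

theorem c2_up {X : Gal(Ω/K) → Gal(Ω/K) → ZMod p} (hX : C2 X) :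
    C2 (fun σ τ : Gal(Ω/F) => X (rsK K F Ω σ) (rsK K F Ω τ)) := by
  refine ⟨fun a => ?_, fun a => ?_, fun a b c => ?_, ?_⟩
  · simp only [map_one, hX.l1]
  · simp only [map_one, hX.r1]
  · simp only [map_mul, hX.co]
  · obtain ⟨E, hE, h1⟩ := hX.lev
    have h2 : Lev (fun σ : Gal(Ω/K) => (σ : Gal(Ω/K) ⧸ E.fixingSubgroup)) := by
      refine ⟨E, hE, fun σ u hu => ?_⟩
      change ((σ * u : Gal(Ω/K)) : Gal(Ω/K) ⧸ E.fixingSubgroup) = (σ : Gal(Ω/K) ⧸ E.fixingSubgroup)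
      rw [QuotientGroup.eq]
      have h3 : (σ * u)⁻¹ * σ = u⁻¹ := by group
      rw [h3]
      exact inv_mem hu
    obtain ⟨M, hM, h3⟩ := bca_lev (L := F) h2
    refine ⟨M, hM, fun σ τ u hu => ?_⟩
    have h4 := h3 1 u hu
    have h5 : rsK K F Ω u ∈ E.fixingSubgroup := by
      have h6 : ((rsK K F Ω (1 * u) : Gal(Ω/K)) : Gal(Ω/K) ⧸ E.fixingSubgroup) =
        ((rsK K F Ω 1 : Gal(Ω/K)) : Gal(Ω/K) ⧸ E.fixingSubgroup) := h4
      rw [QuotientGroup.eq, one_mul, map_one, mul_one] at h6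
      exact inv_mem_iff.1 h6
    simp only [map_mul]
    exact h1 _ _ _ h5

theorem dc_iff {P : Ideal (𝓞 Ω)} {σ : Gal(Ω/F)} : rsK K F Ω σ ∈ Dc K P ↔ σ ∈ Dc F P := by
  constructor
  · intro h
    have h1 : rsK K F Ω σ • P = P := h
    change σ • P = P
    ext x
    rw [Ideal.mem_pointwise_smul_iff_inv_smul_mem, ← bcp_smul (K := K), map_inv,
      ← Ideal.mem_pointwise_smul_iff_inv_smul_mem, h1]
  · intro h
    exact dc_rs h

theorem dc_lift (hp : p.Prime) (hζ : IsPrimitiveRoot ζ p) {c : Kˣ} (H : Kum p K ζ c F)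
    {P : Ideal (𝓞 Ω)} {σ : Gal(Ω/K)} (hσ : σ ∈ Dc K P) (hc : kk p ζ c σ = 0) :
    ∃ σ' ∈ Dc F P, rsK K F Ω σ' = σ := by
  obtain ⟨σ', rfl⟩ := (bca_range hp hζ H σ).1 hc
  exact ⟨σ', dc_iff.1 hσ, rfl⟩

end up

end H82.SF
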