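import Pool.Agent.H82.SF.Orth
import Pool.Agent.H82.SF.Lvb
import Pool.Agent.H82.SF.Lvc
import Pool.Agent.H51.CUB.DUD
import Pool.Agent.H51.MT.Lsp

/-!
# [H82 SF NDG] nondegeneracy

`Ts x a = 0` for all `a` implies that `x` is a `p`-th power locally above `p`.

Proof. `D : RD K p ζ` from `exists_RD` (H63/MA/RMkC). Put `T0 x a = ∑ᶠ w, if w ∈ D.S0 then 0 else b1 p ζ w x a` (additive in both arguments).
(0) If `z` is `PS p ζ D.S0` then `T0 z a = 0`: `z` is `Lv` above `p` (`lv_locP`), so `Ts z a = 0` (`ts_lv`), and `b1 w z a = B w z a = 0` for `w ∈ S0` not above `p` (`Spl`).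
(1) Choose `x' ∈ K^*` by `weak_approx` for `D.S0`: `x' * x⁻¹` is `1` modulo more than `p ^ 2` at the primes above `p`, `One1 w x'` at the other `w ∈ S0`. Then `x' * x⁻¹` is `Lv` above `p`
(`lv_locP`), so `Ts x' a = Ts x a = 0`; `Spl p ζ w x'` for `w ∈ S0` not above `p` (`B_of_one1` and `B_symm`). So `T0 x' a = 0` for all `a`. It is enough to show `PS p ζ D.S0 x'`
(then `lv_locP` and `lv_mul`, `lv_inv`). Write `x` for `x'`.
(2) `∑_{w ∉ S0} ord w x • q w = ∑_{v ∈ T} α v • q v` with `T` a set of good primes (`lsp`). `u0 = x * (∏_{w ∉ S0} pi w ^ ord w x)⁻¹` is a `TUnit`; `D.prim_of` for the difference of the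
exponents: `x = u0 * z0 * ∏_{v ∈ T} pi v ^ (α v).val` with `z0` `PS`.
(3) For a unit `u`: `T0 u x = - T0 x u = 0`, `T0 u u0 = 0` (orders), `T0 u z0 = 0` by (0), and `T0 u (pi v) = LL v u` for good `v` (`B_eq`, see `dudF_pi`, H51/CUB/DUD.lean). So
`∑_{v ∈ T} α v * LL v u = 0` and `dud` gives a unit `u1` with `PS (u1 * ∏ pi v ^ (α v).val)`.
(4) So `x = u2 * z1`, `u2 = u0 * u1⁻¹` a unit, `z1` `PS` (`prim_mul`, `B_mul_left`; see `RMkA_G` in H63/MA/RMkA.lean for the subgroup `PS`). `T0 u2 a = T0 x a - T0 z1 a = 0` for all `a`, with `a = pi v`: `LL v u2 = 0` for all good `v`, so `u2` is a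
`p`-th power (`D.non`), so `x` is `PS`.
-/

set_option autoImplicit false

open scoped NumberField Pointwise
open IsDedekindDomain
open scoped Classical

noncomputable section

namespace H82.SF

open H63.MA H57.PC H57.BRA H89.BRG H57.RQ

variable {K : Type} [Field K] [NumberField K] {Ω : Type} [Field Ω] [Algebra K Ω]
  [IsAlgClosure K Ω] {p : ℕ} {ζ : K}

private theorem ndg_ab (D : RD0 K p ζ) {w : Pl K} (hw : w ∉ D.S0) : ¬ Above p w :=
  fun h => hw (D.above w h)

/-- the sum of the symbols outside `S0` -/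
private def nT (D : RD0 K p ζ) (x a : Kˣ) : ZMod p :=
  ∑ᶠ w, if w ∈ D.S0 then 0 else B p ζ w x a

private theorem nT_fin (hp : p.Prime) (hζ : IsPrimitiveRoot ζ p) (D : RD0 K p ζ) (x a : Kˣ) :
    (Function.support fun w => if w ∈ D.S0 then (0 : ZMod p) else B p ζ w x a).Finite := by
  refine (finite_B hp hζ x a).subset fun w hw => ?_
  rw [Function.mem_support] at hw
  by_cases h : w ∈ D.S0
  · rw [if_pos h] at hw
    exact absurd rfl hw
  · rw [if_neg h] at hw
    exact ⟨ndg_ab D h, hw⟩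

private theorem nT_mul_left (hp : p.Prime) (hζ : IsPrimitiveRoot ζ p) (D : RD0 K p ζ)
    (x x' a : Kˣ) : nT D (x * x') a = nT D x a + nT D x' a := by
  unfold nT
  rw [← finsum_add_distrib (nT_fin hp hζ D x a) (nT_fin hp hζ D x' a)]
  congr 1
  funext w
  by_cases h : w ∈ D.S0
  · rw [if_pos h, if_pos h, if_pos h, add_zero]
  · rw [if_neg h, if_neg h, if_neg h, B_mul_left hp hζ (ndg_ab D h)]

private theorem nT_mul_right (hp : p.Prime) (hζ : IsPrimitiveRoot ζ p) (D : RD0 K p ζ)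
    (x a a' : Kˣ) : nT D x (a * a') = nT D x a + nT D x a' := by
  unfold nT
  rw [← finsum_add_distrib (nT_fin hp hζ D x a) (nT_fin hp hζ D x a')]
  congr 1
  funext w
  by_cases h : w ∈ D.S0
  · rw [if_pos h, if_pos h, if_pos h, add_zero]
  · rw [if_neg h, if_neg h, if_neg h, B_mul_right hp hζ (ndg_ab D h)]

private theorem nT_symm (hp : p.Prime) (hζ : IsPrimitiveRoot ζ p) (D : RD0 K p ζ)
    (x a : Kˣ) : nT D x a = -nT D a x := by
  unfold nT
  rw [← finsum_neg_distrib]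
  congr 1
  funext w
  by_cases h : w ∈ D.S0
  · rw [if_pos h, if_pos h, neg_zero]
  · rw [if_neg h, if_neg h, B_symm hp hζ (ndg_ab D h)]

private theorem nT_pow_right (hp : p.Prime) (hζ : IsPrimitiveRoot ζ p) (D : RD0 K p ζ)
    (x a : Kˣ) (n : ℕ) : nT D x (a ^ n) = (n : ZMod p) * nT D x a := by
  induction n with
  | zero =>
    have h1 := nT_mul_right hp hζ D x 1 1
    rw [one_mul] at h1
    rw [pow_zero, Nat.cast_zero, zero_mul]
    exact left_eq_add.1 h1
  | succ n ih =>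
    rw [pow_succ, nT_mul_right hp hζ, ih]
    push_cast
    ring

private theorem nT_prod_right (hp : p.Prime) (hζ : IsPrimitiveRoot ζ p) (D : RD0 K p ζ)
    (x : Kˣ) (T : Finset (Pl K)) (f : Pl K → Kˣ) (n : Pl K → ℕ) :
    nT D x (∏ v ∈ T, f v ^ n v) = ∑ v ∈ T, (n v : ZMod p) * nT D x (f v) := by
  induction T using Finset.induction_on with
  | empty =>
    rw [Finset.prod_empty, Finset.sum_empty]
    have h1 := nT_pow_right hp hζ D x 1 0
    rw [pow_zero, Nat.cast_zero, zero_mul] at h1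
    exact h1
  | insert i s hi ih =>
    rw [Finset.prod_insert hi, Finset.sum_insert hi, nT_mul_right hp hζ, ih,
      nT_pow_right hp hζ]

private theorem nT_ts (D : RD0 K p ζ) {x a : Kˣ}
    (h : ∀ w ∈ D.S0, ¬ Above p w → B p ζ w x a = 0) : nT D x a = Ts p ζ x a := by
  unfold nT Ts
  congr 1
  funext w
  unfold b1
  by_cases hw : w ∈ D.S0
  · rw [if_pos hw]
    by_cases ha : Above p w
    · rw [if_pos ha]
    · rw [if_neg ha, h w hw ha]
  · rw [if_neg hw, if_neg (ndg_ab D hw)]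

private theorem nT_unit (hp : p.Prime) (hζ : IsPrimitiveRoot ζ p) (D : RD0 K p ζ) {u u' : Kˣ}
    (hu : TUnit D.S0 u) (hu' : TUnit D.S0 u') : nT D u u' = 0 := by
  unfold nT
  have h1 : (fun w => if w ∈ D.S0 then (0 : ZMod p) else B p ζ w u u') = fun _ => 0 := by
    funext w
    by_cases hw : w ∈ D.S0
    · rw [if_pos hw]
    · rw [if_neg hw, B_eq hp hζ D hw, hu w hw, hu' w hw]
      push_cast
      ring
  rw [h1, finsum_zero]

private theorem nT_pi (hp : p.Prime) (hζ : IsPrimitiveRoot ζ p) (D : RD0 K p ζ) {u : Kˣ}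
    (hu : TUnit D.S0 u) {v : Pl K} (hv : v ∉ D.S0) : nT D u (D.pi v) = D.LL v u := by
  unfold nT
  rw [finsum_eq_single _ v]
  · rw [if_neg hv, B_eq hp hζ D hv, hu v hv, D.pi_self v hv]
    push_cast
    ring
  · intro w hw
    by_cases hwS : w ∈ D.S0
    · rw [if_pos hwS]
    · rw [if_neg hwS, B_eq hp hζ D hwS, hu w hwS, D.pi_ne v w hv hwS hw]
      push_cast
      ring

private theorem nT_ps (hp : p.Prime) (hp2 : MOne p K) (hζ : IsPrimitiveRoot ζ p) (D : RD0 K p ζ)
    (hts : ∀ x a : Kˣ, Prim p x → Ts p ζ x a = 0) {z : Kˣ} (hz : PS p ζ D.S0 z) (a : Kˣ) :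
    nT D z a = 0 := by
  rw [nT_ts D fun w hw ha => hz.2 w hw ha a]
  exact hts z a hz.1

/-- the group theoretic core -/
private theorem ndg_core (hp : p.Prime) (hp2 : MOne p K) (hζ : IsPrimitiveRoot ζ p) (D : RD K p ζ)
    (hts : ∀ x a : Kˣ, Prim p x → Ts p ζ x a = 0) {x : Kˣ} (h : ∀ a, nT D.toRD0 x a = 0) :
    PS p ζ D.S0 x := by
  have hF : Fact p.Prime := ⟨hp⟩
  have hm1 : MOne p K := hp2
  -- the finitely many primes outside `S0` in `x`
  obtain ⟨s, hs⟩ : ∃ s : Finset (Pl K), ∀ v, v ∈ s ↔ v ∉ D.S0 ∧ ord v x ≠ 0 := by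
    have hfin : {v : Pl K | v ∉ D.S0 ∧ ord v x ≠ 0}.Finite :=
      (finite_ord x).subset fun v hv => hv.2
    exact ⟨hfin.toFinset, fun v => by rw [Set.Finite.mem_toFinset]; rfl⟩
  obtain ⟨T, hT, hTs⟩ := H51.MT.lsp hp hm1 hζ D.toRD0
  obtain ⟨α, hα⟩ := hTs (∑ v ∈ s, ((ord v x : ℤ) : ZMod p) • D.q v)
  set a0 : Kˣ := ∏ v ∈ s, D.pi v ^ ord v x with ha0
  set b0 : Kˣ := ∏ v ∈ T, D.pi v ^ (α v).val with hb0
  -- `z0`
  have hz0 : PS p ζ D.S0 (a0 * b0⁻¹) := by
    set m1 : Pl K →₀ ℤ := Finsupp.indicator s (fun v _ => ord v x) with hm1'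
    set m2 : Pl K →₀ ℤ := Finsupp.indicator T (fun v _ => -((α v).val : ℤ)) with hm2'
    have e1 : (m1 + m2).prod (fun v n => D.pi v ^ n) = a0 * b0⁻¹ := by
      rw [Finsupp.prod_add_index' (fun v => zpow_zero _) (fun v n n' => zpow_add _ _ _)]
      congr 1
      · rw [Finsupp.prod_of_support_subset m1 (s := s) (Finsupp.support_indicator_subset _ _) _
          (fun v _ => zpow_zero _), ha0]
        refine Finset.prod_congr rfl fun v hv => ?_
        rw [hm1', Finsupp.indicator_of_mem hv]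
      · rw [Finsupp.prod_of_support_subset m2 (s := T) (Finsupp.support_indicator_subset _ _) _
          (fun v _ => zpow_zero _), hb0, ← Finset.prod_inv_distrib]
        refine Finset.prod_congr rfl fun v hv => ?_
        rw [hm2', Finsupp.indicator_of_mem hv, zpow_neg, zpow_natCast]
    rw [← e1]
    refine D.prim_of _ ?_ ?_
    · intro v hv
      have h1 : m1 v = 0 := by
        rw [hm1', Finsupp.indicator_of_notMem]
        intro h2
        exact ((hs v).1 h2).1 hv
      have h3 : m2 v = 0 := by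
        rw [hm2', Finsupp.indicator_of_notMem]
        intro h2
        exact (hT v h2).1 hv
      rw [Finsupp.add_apply, h1, h3, add_zero]
    · rw [Finsupp.sum_add_index' (fun v => by rw [Int.cast_zero, zero_smul])
        (fun v n n' => by rw [Int.cast_add, add_smul])]
      have h1 : (m1.sum fun v n => (n : ZMod p) • D.q v) =
          ∑ v ∈ s, ((ord v x : ℤ) : ZMod p) • D.q v := by
        rw [Finsupp.sum_of_support_subset m1 (s := s) (Finsupp.support_indicator_subset _ _) _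
          (fun v _ => by rw [Int.cast_zero, zero_smul])]
        refine Finset.sum_congr rfl fun v hv => ?_
        rw [hm1', Finsupp.indicator_of_mem hv]
      have h2 : (m2.sum fun v n => (n : ZMod p) • D.q v) = -∑ v ∈ T, α v • D.q v := by
        rw [Finsupp.sum_of_support_subset m2 (s := T) (Finsupp.support_indicator_subset _ _) _
          (fun v _ => by rw [Int.cast_zero, zero_smul]), ← Finset.sum_neg_distrib]
        refine Finset.sum_congr rfl fun v hv => ?_
        rw [hm2', Finsupp.indicator_of_mem hv]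
        push_cast
        rw [ZMod.natCast_zmod_val, neg_smul]
      rw [h1, h2, hα, add_neg_cancel]
  -- `u0`
  have hu0 : TUnit D.S0 (x * a0⁻¹) := by
    intro w hw
    rw [ord_mul, ord_inv, ha0, ord_prod]
    by_cases hws : w ∈ s
    · rw [Finset.sum_eq_single w]
      · rw [ord_zpow, D.pi_self w hw, mul_one, add_neg_cancel]
      · intro v hv hvw
        rw [ord_zpow, D.pi_ne v w ((hs v).1 hv).1 hw (Ne.symm hvw), mul_zero]
      · intro h1
        exact absurd hws h1
    · have h0 : ord w x = 0 := by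
        by_contra h1
        exact hws ((hs w).2 ⟨hw, h1⟩)
      rw [h0, Finset.sum_eq_zero, neg_zero, add_zero]
      intro v hv
      have hvw : w ≠ v := by
        rintro rfl
        exact hws hv
      rw [ord_zpow, D.pi_ne v w ((hs v).1 hv).1 hw hvw, mul_zero]
  set u0 : Kˣ := x * a0⁻¹ with hu0d
  set z0 : Kˣ := a0 * b0⁻¹ with hz0d
  have hx : x = u0 * (z0 * b0) := by
    rw [hu0d, hz0d]
    group
  clear_value u0 z0
  -- the relation
  have hrel : ∀ u : Kˣ, TUnit D.S0 u → ∑ v ∈ T, α v * D.LL v u = 0 := by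
    intro u hu
    have h1 : nT D.toRD0 u x = 0 := by
      rw [nT_symm hp hζ, h u, neg_zero]
    rw [hx, nT_mul_right hp hζ, nT_mul_right hp hζ, nT_unit hp hζ D.toRD0 hu hu0, zero_add,
      nT_symm hp hζ D.toRD0 u z0, nT_ps hp hp2 hζ D.toRD0 hts hz0, neg_zero, zero_add, hb0,
      nT_prod_right hp hζ] at h1
    rw [← h1]
    refine Finset.sum_congr rfl fun v hv => ?_
    rw [ZMod.natCast_zmod_val, nT_pi hp hζ D.toRD0 hu (hT v hv).1]
  obtain ⟨u1, hu1, hPS1⟩ := H51.CUB.dud hp hm1 hζ D T hT α hrel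
  have hz1 : PS p ζ D.S0 (z0 * (u1 * b0)) := RMkA_mul hp hm1 hζ hz0 hPS1
  have hu2 : TUnit D.S0 (u0 * u1⁻¹) := by
    intro w hw
    rw [ord_mul, ord_inv, hu0 w hw, hu1 w hw, neg_zero, add_zero]
  have hx2 : x = (u0 * u1⁻¹) * (z0 * (u1 * b0)) := by
    rw [hx]
    have e : u1⁻¹ * (z0 * (u1 * b0)) = z0 * b0 := by
      rw [mul_left_comm z0 u1 b0, inv_mul_cancel_left]
    rw [mul_assoc, e]
  have hpow : IsPow p (u0 * u1⁻¹) := by
    by_contra hcon
    obtain ⟨v, hv, -, -, hne⟩ := D.non _ hcon ∅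
    apply hne
    rw [← nT_pi hp hζ D.toRD0 hu2 hv.1]
    have h1 := h (D.pi v)
    rw [hx2, nT_mul_left hp hζ, nT_ps hp hp2 hζ D.toRD0 hts hz1, add_zero] at h1
    exact h1
  obtain ⟨y, hy⟩ := hpow
  rw [hx2, ← hy]
  exact RMkA_mul hp hm1 hζ (RMkA_pow hp hm1 hζ D.S0 y) hz1

theorem ndg (hp : p.Prime) (hp2 : MOne p K) (hζ : IsPrimitiveRoot ζ p) {x : Kˣ}
    (h : ∀ a, Ts p ζ x a = 0) {v : Pl K} (hv : Above p v) : Lv p ζ Ω v x := by
  obtain ⟨D⟩ := exists_RD K hp (hp2) hζ
  have hts : ∀ x a : Kˣ, Prim p x → Ts p ζ x a = 0 := by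
    intro x a hx
    exact ts_lv (Ω := Ω) hp hp2 hζ fun v hv => Or.inl (lv_locP hp hζ hv (hx v hv))
  have hpv : ∀ w : Pl K, w.valuation K ((p : K) ^ 2) ≠ 0 := by
    intro w
    rw [Ne, Valuation.zero_iff]
    exact pow_ne_zero 2 (Nat.cast_ne_zero.2 hp.ne_zero)
  obtain ⟨x', hx'⟩ := weak_approx D.S0 (fun w => if Above p w then x else 1)
    (fun w => if Above p w then w.valuation K ((p : K) ^ 2) else 1) (fun w _ => by
      split_ifs
      · exact hpv w
      · exact one_ne_zero)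
  have hx1 : ∀ w : Pl K, Above p w → LocP p w (x' * x⁻¹) := by
    intro w hw
    have h1 := hx' w (D.above w hw)
    rw [if_pos hw, if_pos hw] at h1
    refine ⟨1, ?_⟩
    rw [one_pow, inv_one, mul_one]
    exact h1
  have hx2 : ∀ w ∈ D.S0, ¬ Above p w → One1 w x' := by
    intro w hw ha
    have h1 := hx' w hw
    rw [if_neg ha, if_neg ha, inv_one, mul_one] at h1
    exact h1
  have hT0 : ∀ a, nT D.toRD0 x' a = 0 := by
    intro a
    rw [nT_ts D.toRD0 fun w hw ha => by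
      rw [B_symm hp hζ ha, B_of_one1 hp hζ ha a (hx2 w hw ha), neg_zero]]
    have e : x' = (x' * x⁻¹) * x := by rw [inv_mul_cancel_right]
    rw [e, ts_mul_left hp hζ, hts _ a hx1, h a, add_zero]
  have hPS := ndg_core hp hp2 hζ D hts hT0
  have h1 : Lv p ζ Ω v x' := lv_locP hp hζ hv (hPS.1 v hv)
  have h2 : Lv p ζ Ω v (x' * x⁻¹) := lv_locP hp hζ hv (hx1 v hv)
  have e : x = x' * (x' * x⁻¹)⁻¹ := by
    rw [mul_inv_rev, inv_inv, mul_inv_cancel_comm_assoc]
  rw [e]
  exact lv_mul hp hζ h1 (lv_inv hp hζ h2)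

end H82.SF
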