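import Pool.Agent.H82.SF.Hsa
import Pool.Agent.H82.SF.Kla
import Pool.Agent.H82.SF.Ndg

/-!
# [H82 SF HSB] the symbol at `v`: kernel, vanishing

* `hs_triv`: the cup product of `x`, `a` is a coboundary on `Dc K P` implies `hs v x a = 0`. Above `p`: `ts_triv` for `x' = lc x`: at `v` the cochain `cu x' a` is `cu x a` on `Dc K P` (`lv_cong`,
  `kl_congr`), at the other primes above `p` it is `0` on the decomposition groups (`kl_zero`, `kl_congr`; primes over `v'` by `gloc_over`). Not above `p`: if `x` is a `p`-th power `B v x a = 0`; otherwise `brg_norm` (H89/BRG/Nrm.lean) with `c = x`,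
  `d = a`, `S = {v}`: `x'` with `B v x x' = B v x a` and `v.valuation (x' - 1) < v.valuation (p ^ 2) = 1`, so `One1 v x'` and `B v x x' = 0` (`B_of_one1`).
* `hs_lv`: `Lv v x` implies `hs v x a = 0` (`hs_triv`, the cochain is `0` on `Dc K P`; `gloc_over` gives `P`).
* `lv_hs`: `hs v x a = 0` for all `a` implies `Lv v x`: above `p`: `ndg` for `lc x`, `lv_mul`. Not above `p`: `Spl`, `lv_spl`.
* `hs_cong`: `Lv v (x * y⁻¹)` implies `hs v x a = hs v y a`; `hs_cong_right`.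
-/

set_option autoImplicit false

open scoped NumberField Pointwise
open IsDedekindDomain
open scoped Classical

noncomputable section

namespace H82.SF

open H63.MA H57.PC H57.BRA H89.BRG H57.RQ

variable {K : Type} [Field K] [NumberField K] {Ω : Type} [Field Ω] [Algebra K Ω]
  [IsAlgClosure K Ω] {p : ℕ} {ζ : K}

theorem hs_triv (hp : p.Prime) (hp2 : MOne p K) (hζ : IsPrimitiveRoot ζ p) {v : Pl K}
    {P : Ideal (𝓞 Ω)} (hP : P.IsPrime) (hPv : P.under (𝓞 K) = v.asIdeal) {x a : Kˣ}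
    (h : Kl (fun σ τ : Gal(Ω/K) => cu p ζ x a σ τ) (Dc K P : Set Gal(Ω/K))) :
    hs p ζ Ω v x a = 0 := by
  by_cases hv : Above p v
  · have e : hs p ζ Ω v x a = Ts p ζ (lc p ζ Ω v x) a := if_pos hv
    rw [e]
    have hat := lc_at (Ω := Ω) hp hζ v x
    refine ts_triv (Ω := Ω) hp hp2 hζ fun v' hv' => ?_
    by_cases hvv : v' = v
    · subst hvv
      refine ⟨P, hP, hPv, kl_congr h fun σ hσ τ _ => ?_⟩
      unfold cu
      rw [lv_cong hp hζ hat.1 hP hPv σ hσ]
    · obtain ⟨P', hP', hPv'⟩ := gloc_over K Ω v'.asIdeal v'.isPrime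
      refine ⟨P', hP', hPv', kl_congr kl_zero fun σ hσ τ _ => ?_⟩
      unfold cu
      rw [hat.2 v' hv' hvv P' hP' hPv' σ hσ, zero_mul]
  · have e : hs p ζ Ω v x a = -B p ζ v x a := if_neg hv
    rw [e, neg_eq_zero]
    by_cases hx : IsPow p x
    · obtain ⟨y, rfl⟩ := hx
      have h1 := B_zpow_left hp hζ hv y a (p : ℤ)
      rw [zpow_natCast] at h1
      rw [h1, Int.cast_natCast, ZMod.natCast_self, zero_mul]
    · have h1 : MOne p K := hp2
      obtain ⟨x', -, h2, h3⟩ := brg_norm hp h1 hζ hx a {v} fun w hw => by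
        rw [Finset.mem_singleton] at hw
        subst hw
        exact ⟨P, hP, hPv, h⟩
      rw [← h2 v hv]
      refine B_of_one1 hp hζ hv x ?_
      refine (h3 v (Finset.mem_singleton_self v)).trans_le ?_
      rw [map_pow]
      refine pow_le_one₀ zero_le ?_
      have h4 := v.valuation_le_one (K := K) (p : 𝓞 K)
      have h5 : algebraMap (𝓞 K) K (p : 𝓞 K) = (p : K) := map_natCast (algebraMap (𝓞 K) K) p
      rw [← h5]
      exact h4

theorem hs_lv (hp : p.Prime) (hp2 : MOne p K) (hζ : IsPrimitiveRoot ζ p) {v : Pl K} {x : Kˣ}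
    (hx : Lv p ζ Ω v x) (a : Kˣ) : hs p ζ Ω v x a = 0 := by
  obtain ⟨P, hP, hPv⟩ := gloc_over K Ω v.asIdeal v.isPrime
  refine hs_triv hp hp2 hζ hP hPv (kl_congr kl_zero fun σ hσ τ _ => ?_)
  unfold cu
  rw [hx P hP hPv σ hσ, zero_mul]

theorem lv_hs (hp : p.Prime) (hp2 : MOne p K) (hζ : IsPrimitiveRoot ζ p) {v : Pl K} {x : Kˣ}
    (h : ∀ a, hs p ζ Ω v x a = 0) : Lv p ζ Ω v x := by
  by_cases hv : Above p v
  · have hat := lc_at (Ω := Ω) hp hζ v x
    have h1 : Lv p ζ Ω v (lc p ζ Ω v x) := by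
      refine ndg (Ω := Ω) hp hp2 hζ (fun a => ?_) hv
      have e : hs p ζ Ω v x a = Ts p ζ (lc p ζ Ω v x) a := if_pos hv
      rw [← e, h]
    have h2 : x = (lc p ζ Ω v x * x⁻¹)⁻¹ * lc p ζ Ω v x := by
      rw [mul_inv, inv_inv, mul_assoc, mul_comm x, ← mul_assoc, inv_mul_cancel, one_mul]
    have h3 := lv_mul hp hζ (lv_inv hp hζ hat.1) h1
    rw [← h2] at h3
    exact h3
  · refine lv_spl hp hζ hv fun a => ?_
    have e : hs p ζ Ω v x a = -B p ζ v x a := if_neg hv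
    rw [← neg_eq_zero, ← e, h]

theorem hs_cong (hp : p.Prime) (hp2 : MOne p K) (hζ : IsPrimitiveRoot ζ p) {v : Pl K} {x y : Kˣ}
    (h : Lv p ζ Ω v (x * y⁻¹)) (a : Kˣ) : hs p ζ Ω v x a = hs p ζ Ω v y a := by
  have h1 := hs_mul_left (Ω := Ω) hp hp2 hζ v (x * y⁻¹) y a
  rw [inv_mul_cancel_right, hs_lv hp hp2 hζ h, zero_add] at h1
  exact h1

theorem hs_cong_right (hp : p.Prime) (hp2 : MOne p K) (hζ : IsPrimitiveRoot ζ p) {v : Pl K}
    {x y : Kˣ} (h : Lv p ζ Ω v (x * y⁻¹)) (a : Kˣ) : hs p ζ Ω v a x = hs p ζ Ω v a y := by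
  rw [hs_symm hp hp2 hζ v a x, hs_symm hp hp2 hζ v a y, hs_cong hp hp2 hζ h]

end H82.SF
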