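import Pool.Agent.H82.SF.Lvc
import Pool.Agent.H82.SF.Kla
import Pool.Agent.H82.SF.Dfd
import Pool.Agent.H57.BRA.BQb

/-!
# [H82 SF LBQ] a class on `Dc` trivial on the kernel of `kk c` is a symbol

* `lbq`: `X` is trivial on `{σ ∈ Dc K P | kk c σ = 0}` implies `X + cu c d` trivial on `Dc K P` for some `d ∈ K^*`. Proof: if `kk c = 0` on `Dc K P` take `d = 1` (`kl_congr`, `kk 1 = 0`). Otherwise let `l` be the
  function, `E` a finite Galois extension containing the levels of `l`, `X` (`hX.lev`) and `kk c` (normal closure as in H89/BRG/NrB `nrb_field`, or H57/BRA `bqa`). `F` from `dfd`.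
  For `σ = δ u`, `τ = δ' u'` fixing `F` with `kk c = 0`: `kk c δ = 0`, `X σ τ = X δ δ'`, `l σ = l δ`, `l (σ τ) = l (δ δ')` (`E.fixingSubgroup` is normal; `X (δ u) τ = X δ τ`, `X δ (δ' u') = X δ δ'`). So over `F`
  the cocycle `X (rsK σ) (rsK τ)` is trivial on `{kk (inc c) = 0}` (`bca_kk`, `bca_lev`), and `inc c` is not a `p`-th power (`kk c ≠ 0` on `Dc K P`, `kk_eq_zero_iff`). `bq` (H57/BRA/BQb.lean) over `F`: `d' ∈ F^*`
  with `X + cu (inc c) d'` trivial. The function `σ ↦ kk d' σ'` (`rsK σ' = σ`) is of finite level (`bca_lev'`) and additive on `Dc K P`; `chr` gives `d ∈ K^*` with `kk d σ = kk d' σ'` on `Dc K P`. `kl_dn` with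
  `V = Dc K P`.
-/

set_option autoImplicit false

open scoped NumberField Pointwise
open IsDedekindDomain
open scoped Classical

noncomputable section

namespace H82.SF

open H63.MA H57.PC H57.BRA H89.BRG H57.RQ

variable {K : Type} [Field K] [NumberField K] {Ω : Type} [Field Ω] [Algebra K Ω]
  [IsAlgClosure K Ω] {p : ℕ} {ζ : K}

private theorem lbq_conj (E : IntermediateField K Ω) (hg : IsGalois K E) (σ u : Gal(Ω/K))
    (hu : u ∈ E.fixingSubgroup) : σ⁻¹ * u * σ ∈ E.fixingSubgroup := by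
  have hn : E.fixingSubgroup.Normal := inferInstance
  have h := hn.conj_mem u hu σ⁻¹
  rwa [inv_inv] at h

omit [NumberField K] [IsAlgClosure K Ω] in
private theorem lbq_sub {E E' : IntermediateField K Ω} (h : E ≤ E') {u : Gal(Ω/K)}
    (hu : u ∈ E'.fixingSubgroup) : u ∈ E.fixingSubgroup := by
  rw [IntermediateField.mem_fixingSubgroup_iff] at hu ⊢
  exact fun x hx => hu x (h hx)

private theorem lbq_E {l : Gal(Ω/K) → ZMod p} {X : Gal(Ω/K) → Gal(Ω/K) → ZMod p} {k : Gal(Ω/K) → ZMod p}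
    (hl : Lev l) (hX : C2 X) (hk : Lev k) : ∃ E : IntermediateField K Ω, FiniteDimensional K E ∧
      IsGalois K E ∧ (∀ σ, ∀ u ∈ E.fixingSubgroup, l (σ * u) = l σ) ∧
      (∀ σ, ∀ u ∈ E.fixingSubgroup, k (σ * u) = k σ) ∧
      (∀ σ τ, ∀ u ∈ E.fixingSubgroup, X (σ * u) τ = X σ τ ∧ X σ (τ * u) = X σ τ) := by
  have hgal : IsGalois K Ω := IsAlgClosure.isGalois K Ω
  obtain ⟨E1, hE1, h1⟩ := hl
  obtain ⟨E2, hE2, h2⟩ := hX.lev
  obtain ⟨E3, hE3, h3⟩ := hk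
  have := hE1
  have := hE2
  have := hE3
  have hfd : FiniteDimensional K (E1 ⊔ E2 : IntermediateField K Ω) :=
    IntermediateField.finiteDimensional_sup E1 E2
  have hfd2 : FiniteDimensional K (E1 ⊔ E2 ⊔ E3 : IntermediateField K Ω) :=
    IntermediateField.finiteDimensional_sup _ E3
  obtain ⟨F, hFdef⟩ : ∃ F : IntermediateField K Ω, F = E1 ⊔ E2 ⊔ E3 := ⟨_, rfl⟩
  have hF : FiniteDimensional K F := by rw [hFdef]; exact hfd2
  have hle : F ≤ IntermediateField.normalClosure K F Ω := IntermediateField.le_normalClosure F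
  have l1 : E1 ≤ F := by rw [hFdef]; exact le_sup_of_le_left le_sup_left
  have l2 : E2 ≤ F := by rw [hFdef]; exact le_sup_of_le_left le_sup_right
  have l3 : E3 ≤ F := by rw [hFdef]; exact le_sup_right
  refine ⟨IntermediateField.normalClosure K F Ω, inferInstance, ⟨⟩, ?_, ?_, ?_⟩
  · intro σ u hu
    exact h1 σ u (lbq_sub (l1.trans hle) hu)
  · intro σ u hu
    exact h3 σ u (lbq_sub (l3.trans hle) hu)
  · intro σ τ u hu
    exact h2 σ τ u (lbq_sub (l2.trans hle) hu)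

theorem lbq (hp : p.Prime) (hζ : IsPrimitiveRoot ζ p) {v : Pl K} {P : Ideal (𝓞 Ω)}
    (hP : P.IsPrime) (hPv : P.under (𝓞 K) = v.asIdeal) {X : Gal(Ω/K) → Gal(Ω/K) → ZMod p}
    (hX : C2 X) (c : Kˣ) (h : Kl X {σ : Gal(Ω/K) | σ ∈ Dc K P ∧ kk p ζ c σ = 0}) :
    ∃ d : Kˣ, Kl (fun σ τ : Gal(Ω/K) => X σ τ + cu p ζ c d σ τ) (Dc K P : Set Gal(Ω/K)) := by
  obtain ⟨l, hlL, hl⟩ := h
  by_cases h0 : ∀ σ ∈ Dc K P, kk p ζ c σ = 0
  · refine ⟨1, l, hlL, fun σ hσ τ hτ => ?_⟩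
    rw [hl σ ⟨hσ, h0 σ hσ⟩ τ ⟨hτ, h0 τ hτ⟩]
    unfold cu
    simp only
    rw [h0 σ hσ, zero_mul, add_zero]
  push Not at h0
  obtain ⟨σ0, hσ0, hc0⟩ := h0
  obtain ⟨E, hE, hg, hEl, hEk, hEX⟩ := lbq_E hlL hX (gtriv_kk (Ω := Ω) hp hζ c)
  obtain ⟨F, i1, i2, i3, i4, i5, hD, hF⟩ := dfd P E hE hg
  have i6 : IsAlgClosure F Ω := bca_clo K F Ω
  have hζF : IsPrimitiveRoot (algebraMap K F ζ) p :=
    hζ.map_of_injective (algebraMap K F).injective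
  have hk : Kl (fun σ τ : Gal(Ω/F) => X (rsK K F Ω σ) (rsK K F Ω τ))
      {σ : Gal(Ω/F) | kk p (algebraMap K F ζ) (inc K F c) σ = 0} := by
    refine ⟨fun σ => l (rsK K F Ω σ), bca_lev hlL, fun σ hσ τ hτ => ?_⟩
    change kk p (algebraMap K F ζ) (inc K F c) σ = 0 at hσ
    change kk p (algebraMap K F ζ) (inc K F c) τ = 0 at hτ
    rw [bca_kk hp hζ] at hσ hτ
    simp only
    rw [map_mul]
    obtain ⟨δ, hδ, u, hu, e1⟩ := hF σ
    obtain ⟨δ', hδ', u', hu', e2⟩ := hF τ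
    rw [e1, hEk δ u hu] at hσ
    rw [e2, hEk δ' u' hu'] at hτ
    have e3 : δ * u * (δ' * u') = δ * δ' * (δ'⁻¹ * u * δ') * u' := by group
    rw [e1, e2, e3, hEl _ _ hu', hEl _ _ (lbq_conj E hg δ' u hu), hEl _ _ hu, hEl _ _ hu',
      (hEX _ _ u hu).1, (hEX _ _ u' hu').2]
    exact hl δ ⟨hδ, hσ⟩ δ' ⟨hδ', hτ⟩
  have hcF : ¬ IsPow p (inc K F c) := by
    intro hpow
    obtain ⟨σ', hσ'⟩ := hD σ0 hσ0
    apply hc0
    rw [← hσ', ← bca_kk hp hζ]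
    exact (kk_eq_zero_iff hp hζF (inc K F c)).2 hpow σ'
  obtain ⟨d', hd'⟩ := bq hp hζF (c2_up hX) hcF hk
  obtain ⟨g, hgL, hg'⟩ := bca_lev' (K := K) (gtriv_kk (Ω := Ω) hp hζF d')
  obtain ⟨d, hd⟩ := chr hp hζ hP hPv hgL (fun σ hσ τ hτ => by
    obtain ⟨σ', rfl⟩ := hD σ hσ
    obtain ⟨τ', rfl⟩ := hD τ hτ
    rw [← map_mul, hg', hg', hg', kk_mul])
  refine ⟨d, kl_dn hD ?_⟩
  obtain ⟨l1, hl1, h1⟩ := hd'
  refine ⟨l1, hl1, fun σ hσ τ hτ => ?_⟩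
  change rsK K F Ω σ ∈ Dc K P at hσ
  change rsK K F Ω τ ∈ Dc K P at hτ
  rw [h1]
  simp only
  congr 1
  unfold cu
  rw [bca_kk hp hζ, hd _ hτ, hg']

end H82.SF
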