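import Pool.Agent.H82.SF.Cc

/-!
# [H82 SF LN] symbols with the same `hs` are equal on the decomposition group

`hs v x b = hs v x' b'` implies that `cu x b - cu x' b'` is a coboundary on `Dc K P`. Write `(x, b)` for the class of `cu x b` on `Dc K P`; it is additive in both arguments (`kk_mul_arg`, `kl_congr`).
Proof. If the value `s` is `0`: `cc` twice and `kl_sub`. Let `s ≠ 0`. Case 1: there is `d` with `hs v x d = s` and `hs v x' d = s`: `hs v x (b * d⁻¹) = 0`, so `(x, b) = (x, d)` (`cc`); in the same way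
`(x', b') = (x', d)`; `hs v (x * x'⁻¹) d = 0`, so `(x, d) = (x', d)`. Case 2: there is `k ∈ ZMod p` with `hs v x' = k * hs v x`: then `k ≠ 0`, `hs v x b = s = k * hs v x b'`, so `(x, b) = (x, b' ^ k)`
(`k` a natural number, `cc`), and `x' * (x ^ k)⁻¹` is `Lv v` (`lv_hs`), so `(x', b') = (x ^ k, b') = (x, b' ^ k)` (`lv_cong`). Case 1 or case 2 holds: let `u = hs v x' b`, `k = u / s`. If
`hs v x' d = k * hs v x d` for all `d`: case 2 (`k ≠ 0` because `hs v x' b' = s`). Otherwise take such a `d0` with `hs v x' d0 ≠ k * hs v x d0`; the determinant `s * hs v x' d0 - u * hs v x d0` is not `0`, so the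
system `hs v x (b ^ i * d0 ^ j) = s`, `hs v x' (b ^ i * d0 ^ j) = s` has a solution `i, j` (Cramer; `hs_mul_right`, `hs_pow_right`): case 1.
-/

set_option autoImplicit false

open scoped NumberField Pointwise
open IsDedekindDomain
open scoped Classical

noncomputable section

namespace H82.SF

open H63.MA H57.PC H57.BRA H89.BRG H57.RQ

variable {K : Type} [Field K] [NumberField K] {Ω : Type} [Field Ω] [Algebra K Ω]
  [IsAlgClosure K Ω] {p : ℕ} {ζ : K}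

private theorem ln_kk_div (hp : p.Prime) (hζ : IsPrimitiveRoot ζ p) (b d : Kˣ) (σ : Gal(Ω/K)) :
    kk p ζ (b * d⁻¹) σ = kk p ζ b σ - kk p ζ d σ := by
  have h := kk_mul_arg hp hζ (b * d⁻¹) d σ
  rw [inv_mul_cancel_right] at h
  rw [h, add_sub_cancel_right]

private theorem ln_kk_pow (hp : p.Prime) (hζ : IsPrimitiveRoot ζ p) (b : Kˣ) (n : ℕ)
    (σ : Gal(Ω/K)) : kk p ζ (b ^ n) σ = n * kk p ζ b σ := by
  have h := kk_zpow_arg hp hζ b (n : ℤ) σ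
  rw [zpow_natCast] at h
  rw [h, Int.cast_natCast]

private theorem ln_hs_right (hp : p.Prime) (hp2 : MOne p K) (hζ : IsPrimitiveRoot ζ p) (v : Pl K)
    (x b d : Kˣ) : hs p ζ Ω v x (b * d⁻¹) = hs p ζ Ω v x b - hs p ζ Ω v x d := by
  have h := hs_mul_right (Ω := Ω) hp hp2 hζ v x (b * d⁻¹) d
  rw [inv_mul_cancel_right] at h
  rw [h, add_sub_cancel_right]

private theorem ln_hs_left (hp : p.Prime) (hp2 : MOne p K) (hζ : IsPrimitiveRoot ζ p) (v : Pl K)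
    (x y d : Kˣ) : hs p ζ Ω v (x * y⁻¹) d = hs p ζ Ω v x d - hs p ζ Ω v y d := by
  have h := hs_mul_left (Ω := Ω) hp hp2 hζ v (x * y⁻¹) y d
  rw [inv_mul_cancel_right] at h
  rw [h, add_sub_cancel_right]

private theorem ln_t1 (hp : p.Prime) (hp2 : MOne p K) (hζ : IsPrimitiveRoot ζ p) {v : Pl K}
    {P : Ideal (𝓞 Ω)} (hP : P.IsPrime) (hPv : P.under (𝓞 K) = v.asIdeal) {x b d : Kˣ}
    (h : hs p ζ Ω v x b = hs p ζ Ω v x d) :
    Kl (fun σ τ : Gal(Ω/K) => cu p ζ x b σ τ - cu p ζ x d σ τ) (Dc K P : Set Gal(Ω/K)) := by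
  have h1 : hs p ζ Ω v x (b * d⁻¹) = 0 := by
    rw [ln_hs_right hp hp2 hζ, h, sub_self]
  refine kl_congr (cc hp hp2 hζ hP hPv h1) fun σ _ τ _ => ?_
  unfold cu
  rw [ln_kk_div hp hζ, mul_sub]

private theorem ln_t2 (hp : p.Prime) (hp2 : MOne p K) (hζ : IsPrimitiveRoot ζ p) {v : Pl K}
    {P : Ideal (𝓞 Ω)} (hP : P.IsPrime) (hPv : P.under (𝓞 K) = v.asIdeal) {x y d : Kˣ}
    (h : hs p ζ Ω v x d = hs p ζ Ω v y d) :
    Kl (fun σ τ : Gal(Ω/K) => cu p ζ x d σ τ - cu p ζ y d σ τ) (Dc K P : Set Gal(Ω/K)) := by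
  have h1 : hs p ζ Ω v (x * y⁻¹) d = 0 := by
    rw [ln_hs_left hp hp2 hζ, h, sub_self]
  refine kl_congr (cc hp hp2 hζ hP hPv h1) fun σ _ τ _ => ?_
  unfold cu
  rw [ln_kk_div hp hζ, sub_mul]

omit [NumberField K] [IsAlgClosure K Ω] in
private theorem ln_trans {X Y Z : Gal(Ω/K) → Gal(Ω/K) → ZMod p} {V : Set Gal(Ω/K)}
    (h : Kl (fun σ τ => X σ τ - Y σ τ) V) (h' : Kl (fun σ τ => Y σ τ - Z σ τ) V) :
    Kl (fun σ τ => X σ τ - Z σ τ) V :=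
  kl_congr (kl_add h h') fun σ _ τ _ => by ring

theorem ln (hp : p.Prime) (hp2 : MOne p K) (hζ : IsPrimitiveRoot ζ p) {v : Pl K}
    {P : Ideal (𝓞 Ω)} (hP : P.IsPrime) (hPv : P.under (𝓞 K) = v.asIdeal) {x b x' b' : Kˣ}
    (h : hs p ζ Ω v x b = hs p ζ Ω v x' b') :
    Kl (fun σ τ : Gal(Ω/K) => cu p ζ x b σ τ - cu p ζ x' b' σ τ) (Dc K P : Set Gal(Ω/K)) := by
  have : Fact p.Prime := ⟨hp⟩
  obtain ⟨s, hs0⟩ : ∃ s, s = hs p ζ Ω v x b := ⟨_, rfl⟩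
  have hs1 : hs p ζ Ω v x' b' = s := by rw [hs0, h]
  by_cases h0 : s = 0
  · rw [h0] at hs0 hs1
    exact kl_sub (cc hp hp2 hζ hP hPv hs0.symm) (cc hp hp2 hζ hP hPv hs1)
  by_cases hc2 : ∀ d, hs p ζ Ω v x' d = hs p ζ Ω v x' b / s * hs p ζ Ω v x d
  · obtain ⟨k, hk⟩ : ∃ k, k = hs p ζ Ω v x' b / s := ⟨_, rfl⟩
    rw [← hk] at hc2
    obtain ⟨n, hn⟩ : ∃ n : ℕ, (n : ZMod p) = k := ⟨k.val, ZMod.natCast_zmod_val k⟩
    have h1 : hs p ζ Ω v x b = hs p ζ Ω v x (b' ^ n) := by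
      rw [hs_pow_right hp hp2 hζ, hn, ← hc2, hs1, hs0]
    have h2 : Lv p ζ Ω v (x' * (x ^ n)⁻¹) := by
      refine lv_hs hp hp2 hζ fun a => ?_
      rw [ln_hs_left hp hp2 hζ, hs_pow_left hp hp2 hζ, hc2, hn, sub_self]
    refine ln_trans (ln_t1 hp hp2 hζ hP hPv h1) (kl_congr kl_zero fun σ hσ τ _ => ?_)
    unfold cu
    rw [lv_cong hp hζ h2 hP hPv σ hσ, ln_kk_pow hp hζ, ln_kk_pow hp hζ]
    ring
  · push Not at hc2
    obtain ⟨d0, hd0⟩ := hc2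
    obtain ⟨u, hu⟩ : ∃ u, u = hs p ζ Ω v x' b := ⟨_, rfl⟩
    obtain ⟨α, hα⟩ : ∃ α, α = hs p ζ Ω v x d0 := ⟨_, rfl⟩
    obtain ⟨β, hβ⟩ : ∃ β, β = hs p ζ Ω v x' d0 := ⟨_, rfl⟩
    rw [← hu, ← hα, ← hβ] at hd0
    have hΔ : s * β - u * α ≠ 0 := by
      intro hz
      apply hd0
      rw [div_mul_eq_mul_div, eq_div_iff h0]
      linear_combination hz
    obtain ⟨i, hi⟩ : ∃ i : ℕ, (i : ZMod p) = (s * β - s * α) / (s * β - u * α) :=
      ⟨_, ZMod.natCast_zmod_val _⟩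
    obtain ⟨j, hj⟩ : ∃ j : ℕ, (j : ZMod p) = (s * s - u * s) / (s * β - u * α) :=
      ⟨_, ZMod.natCast_zmod_val _⟩
    have e1 : hs p ζ Ω v x (b ^ i * d0 ^ j) = s := by
      rw [hs_mul_right hp hp2 hζ, hs_pow_right hp hp2 hζ, hs_pow_right hp hp2 hζ, ← hs0, ← hα, hi, hj,
        div_mul_eq_mul_div, div_mul_eq_mul_div, ← add_div, div_eq_iff hΔ]
      ring
    have e2 : hs p ζ Ω v x' (b ^ i * d0 ^ j) = s := by
      rw [hs_mul_right hp hp2 hζ, hs_pow_right hp hp2 hζ, hs_pow_right hp hp2 hζ, ← hu, ← hβ, hi, hj,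
        div_mul_eq_mul_div, div_mul_eq_mul_div, ← add_div, div_eq_iff hΔ]
      ring
    have f1 : hs p ζ Ω v x b = hs p ζ Ω v x (b ^ i * d0 ^ j) := by rw [e1, hs0]
    have f2 : hs p ζ Ω v x (b ^ i * d0 ^ j) = hs p ζ Ω v x' (b ^ i * d0 ^ j) := by rw [e1, e2]
    have f3 : hs p ζ Ω v x' (b ^ i * d0 ^ j) = hs p ζ Ω v x' b' := by rw [e2, hs1]
    exact ln_trans (ln_t1 hp hp2 hζ hP hPv f1)
      (ln_trans (ln_t2 hp hp2 hζ hP hPv f2) (ln_t1 hp hp2 hζ hP hPv f3))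

end H82.SF
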