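import Pool.Agent.H82.SF.Df
import Pool.Agent.H57.RN.Rec
import Pool.Agent.H89.BRG.Nrm

/-!
# [H82 SF ORTH] the global sum vanishes if the cup product is trivial above `p`

`ts_mul_left`, `ts_mul_right`, `ts_symm`, `ts_self`: from `b1_mul_left`, `b1_mul_right`, `b1_symm`, `col_self` (H57/RQ/Col.lean; finite support `b1_fin`).
`ts_triv`: `cu x a` trivial on a decomposition group over each prime above `p` implies `Ts x a = 0`.
Proof. If `x` is a `p`-th power, `x = y ^ p`, `Ts x a = p * Ts y a = 0` (`col_zpow`). Otherwise `brg_norm` (H89/BRG/Nrm.lean) with `c = x`, `d = a`, `S = {v | Above p v}` (`finite_above`): `x'` with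
`B v x x' = B v x a` for all `v` not above `p` and `x'` is `1` modulo more than `p ^ 2` above `p`. So `Ts x a = Ts x x' = - Ts x' x`, and `Dp p 2 x'`, so `Pk p 1 x'` (`dp_pk`, H57/RQ/Loc.lean) and `ro` (H57/RQ/Rec.lean) gives `0`.
`ts_lv`: above every prime over `p` one of `x`, `a` is a `p`-th power: then the cup product is `0` on the decomposition groups (`l = 0`; take any prime `P` over `v`, `gloc_over`).
-/

set_option autoImplicit false

open scoped NumberField Pointwise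
open IsDedekindDomain
open scoped Classical

noncomputable section

namespace H82.SF

open H63.MA H57.PC H57.BRA H89.BRG H57.RQ

variable {K : Type} [Field K] [NumberField K] {Ω : Type} [Field Ω] [Algebra K Ω]
  [IsAlgClosure K Ω] {p : ℕ} {ζ : K}

theorem ts_mul_left (hp : p.Prime) (hζ : IsPrimitiveRoot ζ p) (x x' a : Kˣ) :
    Ts p ζ (x * x') a = Ts p ζ x a + Ts p ζ x' a := by
  unfold Ts
  rw [← finsum_add_distrib (b1_fin hp hζ x a) (b1_fin hp hζ x' a)]
  exact finsum_congr fun v => b1_mul_left hp hζ v x x' a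

theorem ts_mul_right (hp : p.Prime) (hζ : IsPrimitiveRoot ζ p) (x a a' : Kˣ) :
    Ts p ζ x (a * a') = Ts p ζ x a + Ts p ζ x a' := by
  unfold Ts
  rw [← finsum_add_distrib (b1_fin hp hζ x a) (b1_fin hp hζ x a')]
  exact finsum_congr fun v => b1_mul_right hp hζ v x a a'

theorem ts_symm (hp : p.Prime) (hζ : IsPrimitiveRoot ζ p) (x a : Kˣ) :
    Ts p ζ x a = -Ts p ζ a x := by
  unfold Ts
  rw [← finsum_neg_distrib]
  exact finsum_congr fun v => b1_symm hp hζ v x a

theorem ts_self (hp : p.Prime) (hζ : IsPrimitiveRoot ζ p) (x : Kˣ) : Ts p ζ x x = 0 := by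
  unfold Ts
  rw [finsum_congr fun v => col_self hp hζ v x, finsum_zero]

theorem ts_triv (hp : p.Prime) (hp2 : MOne p K) (hζ : IsPrimitiveRoot ζ p) {x a : Kˣ}
    (h : ∀ v : Pl K, Above p v → ∃ P : Ideal (𝓞 Ω), P.IsPrime ∧ P.under (𝓞 K) = v.asIdeal ∧
      Kl (fun σ τ : Gal(Ω/K) => cu p ζ x a σ τ) (Dc K P : Set Gal(Ω/K))) : Ts p ζ x a = 0 := by
  have : Fact p.Prime := ⟨hp⟩
  by_cases hx : IsPow p x
  · obtain ⟨y, rfl⟩ := hx
    unfold Ts
    rw [← finsum_zero (M := ZMod p) (α := Pl K)]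
    refine finsum_congr fun v => ?_
    rw [← zpow_natCast, col_zpow hp hζ, Int.cast_natCast, CharP.cast_eq_zero, zero_mul]
  · have hfa : {v : Pl K | Above p v}.Finite := finite_above hp.ne_zero
    obtain ⟨x', -, h2, h3⟩ := brg_norm (Ω := Ω) hp hp2 hζ hx a
      hfa.toFinset (fun v hv => h v (hfa.mem_toFinset.1 hv))
    have h4 : Ts p ζ x a = Ts p ζ x x' := by
      unfold Ts
      refine finsum_congr fun v => ?_
      by_cases hv : Above p v
      · rw [col_of_above hv, col_of_above hv]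
      · rw [col_of_not hv, col_of_not hv, h2 v hv]
    have h5 : Dp p (1 + 1) x' := fun v hv => h3 v (hfa.mem_toFinset.2 hv)
    have h6 : Pk p 1 x' := N.dpn hp h5
    rw [h4, ts_symm hp hζ]
    have h7 : Ts p ζ x' x = 0 := N.ro hp K ζ hζ hp2 x' h6 x
    rw [h7, neg_zero]

theorem ts_lv (hp : p.Prime) (hp2 : MOne p K) (hζ : IsPrimitiveRoot ζ p) {x a : Kˣ}
    (h : ∀ v : Pl K, Above p v → Lv p ζ Ω v x ∨ Lv p ζ Ω v a) : Ts p ζ x a = 0 := by
  refine ts_triv (Ω := Ω) hp hp2 hζ fun v hv => ?_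
  obtain ⟨P, hP, hPv⟩ := gloc_over K Ω v.asIdeal v.isPrime
  refine ⟨P, hP, hPv, fun _ => 0, ⟨⊥, inferInstance, fun _ _ _ => rfl⟩, ?_⟩
  intro σ hσ τ hτ
  have h1 : cu p ζ x a σ τ = 0 := by
    unfold cu
    rcases h v hv with h2 | h2
    · rw [h2 P hP hPv σ hσ, zero_mul]
    · rw [h2 P hP hPv τ hτ, mul_zero]
  show (0 : ZMod p) = 0 + 0 + cu p ζ x a σ τ
  rw [h1, add_zero, add_zero]

end H82.SF
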