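import Pool.Agent.H82.SF.Lva
import Pool.Agent.H82.SF.Kla

/-!
# [H82 SF PLC] places of `L = K(c^(1/p))`

`v` a prime of `K` such that `c` is not a `p`-th power locally at `v`.
* `one_over`: there is only one prime of `L` over `v`. Proof: primes `P`, `P'` of `𝓞 Ω` over `w`, `w'` (`gloc_over` over `L`); both lie over `v` (see `bcp_under` in H57/BRA/Bcp.lean), `ltr_conj` over `K` gives `g` with
  `x ∈ P' ↔ g⁻¹ • x ∈ P`. `c` is not `Lv`, so by `lv_of` some `δ ∈ Dc K P` has `kk c δ ≠ 0`; a power of `δ` has `kk c (g * δ ^ m) = 0` (`kk_mul`). `g * δ ^ m = rsK σ'` (`bca_range`), and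
  `x ∈ P' ↔ (g δ^m)⁻¹ • x ∈ P`. For `x ∈ 𝓞 L`, `σ'⁻¹ • x = x` so `x ∈ P' ↔ x ∈ P`: the primes of `L` under `P` and `P'` are the same.
* `lv_inc`: `Lv v a` implies `Lv w (inc a)` for `w` over `v`: `bca_kk`, `dc_rs`.
* `inc_lv`: if `inc a` is `Lv` at `w` (over `v`, `c` not `Lv v`) then `a * (c ^ t)⁻¹` is `Lv v` for some `t`. Proof: let `P` lie over `w` (so over `v`); by `dc_lift` and `bca_kk`: `kk a σ = 0` for
  `σ ∈ Dc K P` with `kk c σ = 0`. Take `δ ∈ Dc K P` with `kk c δ = 1` (a power of an element with `kk c ≠ 0`), `t = (kk a δ).val`; for `σ ∈ Dc K P`, `σ * δ ^ (-kk c σ)` is in the kernel of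
  `kk c`, so `kk a σ = kk c σ * kk a δ`. Then `lv_of`.
* `over_under`: a prime `P` of `𝓞 Ω` over `w` (in `L`) lies over `v` (in `K`) if `w` lies over `v`.
-/

set_option autoImplicit false

open scoped NumberField Pointwise
open IsDedekindDomain
open scoped Classical

noncomputable section

namespace H82.SF

open H63.MA H57.PC H57.BRA H89.BRG H57.RQ

variable {K : Type} [Field K] [NumberField K] {Ω : Type} [Field Ω] [Algebra K Ω]
  [IsAlgClosure K Ω] {p : ℕ} {ζ : K} {L : Type} [Field L] [NumberField L] [Algebra K L]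
  [Algebra L Ω] [IsScalarTower K L Ω] [IsAlgClosure L Ω]

private theorem plc_kk_pow (a : Kˣ) (σ : Gal(Ω/K)) (n : ℕ) :
    kk p ζ a (σ ^ n) = n * kk p ζ a σ := by
  induction n with
  | zero => rw [pow_zero, kk_one, Nat.cast_zero, zero_mul]
  | succ n ih =>
    rw [pow_succ, kk_mul, ih]
    push_cast
    ring

private theorem plc_kk_inv (a : Kˣ) (σ : Gal(Ω/K)) : kk p ζ a σ⁻¹ = -kk p ζ a σ := by
  have h1 := kk_mul (p := p) (ζ := ζ) a σ σ⁻¹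
  rw [mul_inv_cancel, kk_one] at h1
  linear_combination -h1

/-- an element of the decomposition group on which `c` is not trivial -/
private theorem plc_ex (hp : p.Prime) (hζ : IsPrimitiveRoot ζ p) {c : Kˣ} {v : Pl K}
    (hc : ¬ Lv p ζ Ω v c) {P : Ideal (𝓞 Ω)} (hP : P.IsPrime) (hPv : P.under (𝓞 K) = v.asIdeal) :
    ∃ δ ∈ Dc K P, kk p ζ c δ = 1 := by
  by_contra hcon
  apply hc
  refine lv_of hp hζ hP hPv fun σ hσ => ?_
  by_contra h1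
  apply hcon
  have : Fact p.Prime := ⟨hp⟩
  refine ⟨σ ^ ((kk p ζ c σ)⁻¹).val, Subgroup.pow_mem _ hσ _, ?_⟩
  rw [plc_kk_pow, ZMod.natCast_zmod_val]
  exact inv_mul_cancel₀ h1

theorem over_under {w : Pl L} {v : Pl K} (hw : Over w v) {P : Ideal (𝓞 Ω)}
    (hPw : P.under (𝓞 L) = w.asIdeal) : P.under (𝓞 K) = v.asIdeal :=
  bcp_under hw hPw

theorem lv_inc (hp : p.Prime) (hζ : IsPrimitiveRoot ζ p) {w : Pl L} {v : Pl K} (hw : Over w v)
    {a : Kˣ} (h : Lv p ζ Ω v a) : Lv p (algebraMap K L ζ) Ω w (inc K L a) := by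
  intro P hP hPw σ hσ
  rw [bca_kk hp hζ]
  exact h P hP (over_under hw hPw) _ (dc_rs hσ)

theorem one_over (hp : p.Prime) (hζ : IsPrimitiveRoot ζ p) {c : Kˣ} (H : Kum p K ζ c L)
    {v : Pl K} (hc : ¬ Lv p ζ Ω v c) {w w' : Pl L} (hw : Over w v) (hw' : Over w' v) :
    w = w' := by
  have : Fact p.Prime := ⟨hp⟩
  obtain ⟨P, hP, hPw⟩ := gloc_over L Ω w.asIdeal w.isPrime
  obtain ⟨P', hP', hPw'⟩ := gloc_over L Ω w'.asIdeal w'.isPrime
  have hPv : P.under (𝓞 K) = v.asIdeal := over_under hw hPw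
  have hPv' : P'.under (𝓞 K) = v.asIdeal := over_under hw' hPw'
  obtain ⟨g, hg⟩ := ltr_conj hP hP' hPv hPv'
  obtain ⟨δ, hδ, hδ1⟩ := plc_ex hp hζ hc hP hPv
  obtain ⟨m, hm⟩ : ∃ m : ℕ, kk p ζ c (g * δ ^ m) = 0 := by
    refine ⟨(-(kk p ζ c g)).val, ?_⟩
    rw [kk_mul, plc_kk_pow, hδ1, ZMod.natCast_zmod_val]
    ring
  obtain ⟨σ', hσ'⟩ := (bca_range hp hζ H _).1 hm
  have hδm : δ ^ m ∈ Dc K P := Subgroup.pow_mem _ hδ _
  have h1 : ∀ x : 𝓞 Ω, x ∈ P' ↔ (rsK K L Ω σ')⁻¹ • x ∈ P := by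
    intro x
    have h2 : δ ^ m • P = P := hδm
    have h3 : g⁻¹ • x ∈ δ ^ m • P ↔ (δ ^ m)⁻¹ • (g⁻¹ • x) ∈ P :=
      Ideal.mem_pointwise_smul_iff_inv_smul_mem
    rw [hg, hσ', mul_inv_rev, mul_smul, ← h3, h2]
  apply HeightOneSpectrum.ext
  rw [← hPw, ← hPw']
  ext x
  change algebraMap (𝓞 L) (𝓞 Ω) x ∈ P ↔ algebraMap (𝓞 L) (𝓞 Ω) x ∈ P'
  have h3 : (rsK K L Ω σ')⁻¹ • algebraMap (𝓞 L) (𝓞 Ω) x = algebraMap (𝓞 L) (𝓞 Ω) x := by
    rw [← map_inv, bcp_smul]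
    apply NumberField.RingOfIntegers.ext
    exact (σ'⁻¹).commutes (x : L)
  rw [h1, h3]

theorem inc_lv (hp : p.Prime) (hζ : IsPrimitiveRoot ζ p) {c : Kˣ} (H : Kum p K ζ c L)
    {v : Pl K} (hc : ¬ Lv p ζ Ω v c) {w : Pl L} (hw : Over w v) {a : Kˣ}
    (h : Lv p (algebraMap K L ζ) Ω w (inc K L a)) : ∃ t : ℕ, Lv p ζ Ω v (a * (c ^ t)⁻¹) := by
  have : Fact p.Prime := ⟨hp⟩
  obtain ⟨P, hP, hPw⟩ := gloc_over L Ω w.asIdeal w.isPrime
  have hPv : P.under (𝓞 K) = v.asIdeal := over_under hw hPw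
  have h0 : ∀ σ ∈ Dc K P, kk p ζ c σ = 0 → kk p ζ a σ = 0 := by
    intro σ hσ h1
    obtain ⟨σ', hσ', h2⟩ := dc_lift hp hζ H hσ h1
    rw [← h2, ← bca_kk hp hζ]
    exact h P hP hPw _ hσ'
  obtain ⟨δ, hδ, hδ1⟩ := plc_ex hp hζ hc hP hPv
  have h1 : ∀ σ ∈ Dc K P, kk p ζ a σ = kk p ζ c σ * kk p ζ a δ := by
    intro σ hσ
    have h2 := h0 (σ * (δ ^ (kk p ζ c σ).val)⁻¹)
      (Subgroup.mul_mem _ hσ (Subgroup.inv_mem _ (Subgroup.pow_mem _ hδ _))) (by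
        rw [kk_mul, plc_kk_inv, plc_kk_pow, hδ1, ZMod.natCast_zmod_val]
        ring)
    rw [kk_mul, plc_kk_inv, plc_kk_pow, ZMod.natCast_zmod_val] at h2
    linear_combination h2
  refine ⟨(kk p ζ a δ).val, lv_of hp hζ hP hPv fun σ hσ => ?_⟩
  have h2 : (a * (c ^ (kk p ζ a δ).val)⁻¹ : Kˣ) = a * c ^ (-((kk p ζ a δ).val : ℤ)) := by
    rw [zpow_neg, zpow_natCast]
  rw [h2, kk_mul_arg hp hζ, kk_zpow_arg hp hζ, h1 σ hσ]
  push_cast
  rw [ZMod.natCast_zmod_val]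
  ring

end H82.SF
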