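import Pool.Agent.H82.SF.Ln
import Pool.Agent.H82.SF.Cor

/-!
# [H82 SF STP] a class which is a symbol over `L = K(c^(1/p))` is trivial over `L`

`c` not a `p`-th power at `v`, `P` over `v`, `X` a cocycle of finite level on `Γ`; `X` is the symbol `(x, y)` on `Dc L P`. Then `X` is trivial on `Dc L P`, so on `{σ ∈ Dc K P | kk c σ = 0}`.
Proof. `w` = the prime of `L` under `P` (over `v`; see `den_prime`, or `exists_over` and `one_over` and `gloc_over`). (1) If `hs_L w x y = 0`: `cc` over `L`: `cu x y` is trivial on `Dc L P`, so `X` is (`kl_add`), then `kl_dn` (with `dc_iff`, `dc_lift`, `bca_range`).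
(2) Let `s = hs_L w x y ≠ 0`. There is `c' ∈ K^*` with `hs v c c' ≠ 0` (`lv_hs`). `inc c'` is not `Lv` at `w`: otherwise `c' * (c ^ t)⁻¹` is `Lv v` (`inc_lv`) and `hs v c c' = t * hs v c c = 0`
(`hs_cong_right`, `hs_pow_right`, `hs_self`). So (`lv_hs` over `L`) `hs_L w (inc c') y' ≠ 0` for some `y'`, and with a power of `y'`: `= s` (`hs_pow_right`). By `ln` over `L`: `cu x y - cu (inc c') y'` is trivial on
`Dc L P`. `adj`: `y1` with `Lv w (y1 * y'⁻¹)`, `hs v c' (N y1) = hs_L w (inc c') y' = s`. On `Dc L P`: `cu (inc c') y' = cu (inc c') y1` (`lv_cong`). So `X - cu (inc c') y1` is trivial on `Dc L P` and by `cor`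
`cu c' (N y1)` is trivial on `Dc K P`; `hs_triv`: `hs v c' (N y1) = 0`, a contradiction.
-/

set_option autoImplicit false

open scoped NumberField Pointwise
open IsDedekindDomain
open scoped Classical

noncomputable section

namespace H82.SF

open H63.MA H57.PC H57.BRA H89.BRG H57.RQ

variable {K : Type} [Field K] [NumberField K] {Ω : Type} [Field Ω] [Algebra K Ω]
  [IsAlgClosure K Ω] {p : ℕ} {ζ : K} {L : Type} [Field L] [NumberField L] [Algebra K L]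
  [Algebra L Ω] [IsScalarTower K L Ω] [IsAlgClosure L Ω]

/-- the prime of `L` under `P` -/
theorem under_pl {v : Pl K} {P : Ideal (𝓞 Ω)} (hP : P.IsPrime)
    (hPv : P.under (𝓞 K) = v.asIdeal) (L : Type) [Field L] [NumberField L] [Algebra K L]
    [Algebra L Ω] [IsScalarTower K L Ω] :
    ∃ w : Pl L, P.under (𝓞 L) = w.asIdeal ∧ Over w v := by
  have h1 : (P.under (𝓞 L)).comap (algebraMap (𝓞 K) (𝓞 L)) = v.asIdeal := by
    rw [← hPv]
    ext x
    show algebraMap (𝓞 L) (𝓞 Ω) (algebraMap (𝓞 K) (𝓞 L) x) ∈ P ↔ algebraMap (𝓞 K) (𝓞 Ω) x ∈ P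
    have h2 : algebraMap (𝓞 L) (𝓞 Ω) (algebraMap (𝓞 K) (𝓞 L) x) = algebraMap (𝓞 K) (𝓞 Ω) x := by
      apply NumberField.RingOfIntegers.ext
      show algebraMap L Ω (algebraMap K L (x : K)) = algebraMap K Ω (x : K)
      exact (IsScalarTower.algebraMap_apply K L Ω (x : K)).symm
    rw [h2]
  refine ⟨⟨P.under (𝓞 L), inferInstance, ?_⟩, rfl, h1⟩
  intro h0
  rw [h0] at h1
  apply v.ne_bot
  rw [← h1, eq_bot_iff]
  intro x hx
  have h2 : algebraMap (𝓞 K) (𝓞 L) x = 0 := hx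
  have h3 : algebraMap K L (x : K) = 0 := congrArg (fun z : 𝓞 L => (z : L)) h2
  have h4 : (x : K) = 0 := (map_eq_zero _).1 h3
  exact NumberField.RingOfIntegers.ext h4

private theorem stp_dn (hp : p.Prime) (hζ : IsPrimitiveRoot ζ p) {c : Kˣ} (H : Kum p K ζ c L)
    {P : Ideal (𝓞 Ω)} {X : Gal(Ω/K) → Gal(Ω/K) → ZMod p}
    (h : Kl (fun σ τ : Gal(Ω/L) => X (rsK K L Ω σ) (rsK K L Ω τ)) (Dc L P : Set Gal(Ω/L))) :
    Kl X {σ : Gal(Ω/K) | σ ∈ Dc K P ∧ kk p ζ c σ = 0} := by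
  refine kl_dn (F := L) (fun σ hσ => ?_) (kl_mono h fun σ hσ => ?_)
  · obtain ⟨σ', -, h2⟩ := dc_lift hp hζ H hσ.1 hσ.2
    exact ⟨σ', h2⟩
  · exact dc_iff.1 hσ.1

theorem stp (hp : p.Prime) (hp2 : MOne p K) (hζ : IsPrimitiveRoot ζ p) {c : Kˣ}
    (H : Kum p K ζ c L) {v : Pl K} (hc : ¬ Lv p ζ Ω v c) {P : Ideal (𝓞 Ω)} (hP : P.IsPrime)
    (hPv : P.under (𝓞 K) = v.asIdeal) {X : Gal(Ω/K) → Gal(Ω/K) → ZMod p} (hX : C2 X)
    (x y : Lˣ) (h : Kl (fun σ τ : Gal(Ω/L) => X (rsK K L Ω σ) (rsK K L Ω τ) -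
      cu p (algebraMap K L ζ) x y σ τ) (Dc L P : Set Gal(Ω/L))) :
    Kl X {σ : Gal(Ω/K) | σ ∈ Dc K P ∧ kk p ζ c σ = 0} := by
  have : Fact p.Prime := ⟨hp⟩
  have hζL : IsPrimitiveRoot (algebraMap K L ζ) p := hζ.map_of_injective (algebraMap K L).injective
  obtain ⟨w, hPw, hw⟩ := under_pl hP hPv L
  by_cases h0 : hs p (algebraMap K L ζ) Ω w x y = 0
  · have h1 := cc hp (mone_map hp2 L) hζL hP hPw h0
    refine stp_dn hp hζ H (kl_congr (kl_add h h1) fun σ _ τ _ => ?_)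
    ring
  · exfalso
    obtain ⟨s, hs0⟩ : ∃ s, s = hs p (algebraMap K L ζ) Ω w x y := ⟨_, rfl⟩
    rw [← hs0] at h0
    -- `c'`
    obtain ⟨c', hc'⟩ : ∃ c' : Kˣ, hs p ζ Ω v c c' ≠ 0 := by
      by_contra hcon
      push Not at hcon
      exact hc (lv_hs hp hp2 hζ hcon)
    have hci : ¬ Lv p (algebraMap K L ζ) Ω w (inc K L c') := by
      intro h1
      obtain ⟨t, ht⟩ := inc_lv hp hζ H hc hw h1
      apply hc'
      rw [hs_cong_right hp hp2 hζ ht, hs_pow_right hp hp2 hζ, hs_self hp hp2 hζ, mul_zero]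
    obtain ⟨y0, hy0⟩ : ∃ y0 : Lˣ, hs p (algebraMap K L ζ) Ω w (inc K L c') y0 ≠ 0 := by
      by_contra hcon
      push Not at hcon
      exact hci (lv_hs hp (mone_map hp2 L) hζL hcon)
    obtain ⟨y', hy'⟩ : ∃ y' : Lˣ, hs p (algebraMap K L ζ) Ω w (inc K L c') y' = s := by
      refine ⟨y0 ^ (s * (hs p (algebraMap K L ζ) Ω w (inc K L c') y0)⁻¹).val, ?_⟩
      rw [hs_pow_right hp (mone_map hp2 L) hζL, ZMod.natCast_zmod_val, mul_assoc, inv_mul_cancel₀ hy0, mul_one]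
    have h2 := ln hp (mone_map hp2 L) hζL hP hPw (x := x) (b := y) (x' := inc K L c') (b' := y')
      (by rw [hy', ← hs0])
    obtain ⟨y1, hy1, hadj⟩ := adj hp hp2 hζ H hc hw y'
    have h3 : Kl (fun σ τ : Gal(Ω/L) => X (rsK K L Ω σ) (rsK K L Ω τ) -
        cu p (algebraMap K L ζ) (inc K L c') y1 σ τ) (Dc L P : Set Gal(Ω/L)) := by
      refine kl_congr (kl_add h h2) fun σ _ τ hτ => ?_
      have h4 := lv_cong hp hζL hy1 hP hPw τ hτ
      simp only [cu]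
      rw [h4]
      ring
    have h5 := hs_triv hp hp2 hζ hP hPv (cor hp hζ H hc hP hPv hX c' y1 h3)
    rw [hadj, hy'] at h5
    exact h0 h5

end H82.SF
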