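import Pool.Agent.H82.SF.Stp
import Pool.Agent.H82.SF.Lbq
import Pool.Agent.H24.RK.Has

/-!
# [H82 SF SYM] every class on `Dc K P` inflated from a finite `p`-group is a symbol

`ρ : Γ → R` of finite type, `#ρ(Dc K P) = p ^ n`. Then `pb e ρ - cu x b` is trivial on `Dc K P` for some `x, b ∈ K^*`. Induction on `n` (all number fields `K`).
`n = 0`: `ρ = 1` on `Dc K P`, `pb e ρ = e 1 1 = 0` there, `x = b = 1` (`kk 1 = 0`).
`n + 1`: `D = (Dc K P).map ρ`; `χ : D →* Multiplicative (ZMod p)` with `#ker χ = p ^ n` (copy the private `hp_chi` in H24/RK/Has.lean). `f σ = toAdd (χ (ρ σ))` if `ρ σ ∈ D`, `0` otherwise: of finite level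
(`ρ` is), additive on `Dc K P`; `chr`: `c ∈ K^*` with `kk c = f` on `Dc K P`. `c` is not `Lv v` (`χ ≠ 1`), so not a `p`-th power. `L`, `H` from `bca_exists`, `bca_clo`; `v' = ` the prime of `L` under `P`
(`den_prime`-like; `exists_over`, `one_over`). `(Dc L P).map (ρ.comp rsK)` = the `ρ σ`, `σ ∈ Dc K P`, `kk c σ = 0` (`dc_iff`, `dc_lift`) = the image of `ker χ` in `R`, of order `p ^ n`. Induction hypothesis over `L` (`bca_ft`,
`ζ` in `L`): `pb e (ρ.comp rsK) - cu x y` is trivial on `Dc L P`. `stp` (`c2_pb`, H57/BRA/Has.lean, for `C2 (pb e ρ)`): `pb e ρ` is trivial on `{σ ∈ Dc K P | kk c σ = 0}`. `lbq`: `pb e ρ + cu c d` is trivial on `Dc K P`;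
`x = c`, `b = d⁻¹` (`kk_zpow_arg`).
-/

set_option autoImplicit false

open scoped NumberField Pointwise
open IsDedekindDomain
open scoped Classical

noncomputable section

namespace H82.SF

open H63.MA H57.PC H57.BRA H89.BRG H57.RQ

private theorem sym_chi {A : Type} [Group A] [Finite A] {p n : ℕ} (hp : p.Prime)
    (hA : Nat.card A = p ^ (n + 1)) : ∃ q : A →* Multiplicative (ZMod p), Nat.card q.ker = p ^ n := by
  have : Fact p.Prime := ⟨hp⟩
  obtain ⟨B, hB⟩ := Sylow.exists_subgroup_card_pow_prime (G := A) p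
    (show p ^ n ∣ Nat.card A by rw [hA]; exact pow_dvd_pow p (Nat.le_succ n))
  have hi : B.index = p := by
    have h1 := B.card_mul_index
    rw [hA, hB, pow_succ] at h1
    exact Nat.eq_of_mul_eq_mul_left (pow_pos hp.pos n) h1
  have hn : B.Normal := by
    apply Subgroup.normal_of_index_eq_minFac_card
    rw [hi, hA, hp.pow_minFac (Nat.succ_ne_zero n)]
  have hc : Nat.card (A ⧸ B) = p := hi
  have hz : Nat.card (Multiplicative (ZMod p)) = p := Nat.card_zmod p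
  let e : A ⧸ B ≃* Multiplicative (ZMod p) := mulEquivOfPrimeCardEq hc hz
  refine ⟨e.toMonoidHom.comp (QuotientGroup.mk' B), ?_⟩
  have h1 : (e.toMonoidHom.comp (QuotientGroup.mk' B)).ker = B := by
    ext g
    rw [MonoidHom.mem_ker]
    show e ((QuotientGroup.mk' B) g) = 1 ↔ g ∈ B
    rw [EmbeddingLike.map_eq_one_iff]
    exact QuotientGroup.eq_one_iff g
  rw [h1]
  exact hB

theorem sym {p : ℕ} (hp : p.Prime) {R : Type} [Group R] [Finite R]
    {e : R → R → ZMod p} (he : Coc p e) (n : ℕ) :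
    ∀ (K : Type) [Field K] [NumberField K] (_ : MOne p K) (ζ : K) (_ : IsPrimitiveRoot ζ p) (Ω : Type)
      [Field Ω] [Algebra K Ω] [IsAlgClosure K Ω] (ρ : Gal(Ω/K) →* R) (_ : H38.ML.FT ρ)
      (v : Pl K) (P : Ideal (𝓞 Ω)) (_ : P.IsPrime) (_ : P.under (𝓞 K) = v.asIdeal)
      (_ : Nat.card ((Dc K P).map ρ) = p ^ n),
      ∃ x b : Kˣ, Kl (fun σ τ : Gal(Ω/K) => pb e ρ σ τ - cu p ζ x b σ τ)
        (Dc K P : Set Gal(Ω/K)) := by
  induction n with
  | zero =>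
    intro K _ _ hp2 ζ hζ Ω _ _ _ ρ _ v P hP hPv hcard
    rw [pow_zero] at hcard
    have h2 : (Dc K P).map ρ = ⊥ := Subgroup.card_eq_one.1 hcard
    have h1 : ∀ σ ∈ Dc K P, ρ σ = 1 := by
      intro σ hσ
      have h3 : ρ σ ∈ (Dc K P).map ρ := ⟨σ, hσ, rfl⟩
      rw [h2] at h3
      exact Subgroup.mem_bot.1 h3
    refine ⟨1, 1, kl_congr kl_zero fun σ hσ τ hτ => ?_⟩
    have h3 := lv_one (Ω := Ω) hp hζ v P hP hPv σ hσ
    simp only [pb, cu]
    rw [h1 σ hσ, he.l1, h3, zero_mul, sub_zero]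
  | succ n ih =>
    intro K _ _ hp2 ζ hζ Ω _ _ _ ρ hρ v P hP hPv hcard
    obtain ⟨D, hD⟩ : ∃ D : Subgroup R, D = (Dc K P).map ρ := ⟨_, rfl⟩
    rw [← hD] at hcard
    have hDm : ∀ σ ∈ Dc K P, ρ σ ∈ D := by
      intro σ hσ
      rw [hD]
      exact ⟨σ, hσ, rfl⟩
    obtain ⟨q, hq⟩ := sym_chi (A := D) hp hcard
    obtain ⟨f, hf⟩ : ∃ f : Gal(Ω/K) → ZMod p, f = fun σ =>
        if h : ρ σ ∈ D then Multiplicative.toAdd (q ⟨ρ σ, h⟩) else 0 := ⟨_, rfl⟩
    have hf1 : ∀ σ, ∀ h : ρ σ ∈ D, f σ = Multiplicative.toAdd (q ⟨ρ σ, h⟩) := by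
      intro σ h
      rw [hf]
      simp only
      rw [dif_pos h]
    have hlev : Lev f := by
      obtain ⟨E, hE, hEl⟩ := hρ
      refine ⟨E, hE, fun σ u hu => ?_⟩
      have h1 : ρ (σ * u) = ρ σ := by
        rw [map_mul, MonoidHom.mem_ker.1 (hEl hu), mul_one]
      rw [hf]
      simp only [h1]
    have hadd : ∀ σ ∈ Dc K P, ∀ τ ∈ Dc K P, f (σ * τ) = f σ + f τ := by
      intro σ hσ τ hτ
      rw [hf1 σ (hDm σ hσ), hf1 τ (hDm τ hτ), hf1 _ (hDm _ ((Dc K P).mul_mem hσ hτ)), ← toAdd_mul,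
        ← map_mul]
      congr 2
      exact Subtype.ext (map_mul ρ σ τ)
    obtain ⟨c, hc⟩ := chr hp hζ hP hPv hlev hadd
    have hkk : ∀ σ, ∀ h : σ ∈ Dc K P, kk p ζ c σ = 0 ↔ (⟨ρ σ, hDm σ h⟩ : D) ∈ q.ker := by
      intro σ h
      rw [hc σ h, hf1 σ (hDm σ h), MonoidHom.mem_ker]
      constructor
      · intro h
        exact Multiplicative.toAdd.injective h
      · intro h
        rw [h]
        rfl
    have hnl : ¬ Lv p ζ Ω v c := by
      intro h
      have h2 : q.ker = ⊤ := by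
        rw [eq_top_iff]
        rintro ⟨y, hy⟩ -
        have hy' := hy
        rw [hD] at hy'
        obtain ⟨σ, hσ, rfl⟩ := hy'
        exact (hkk σ hσ).1 (h P hP hPv σ hσ)
      rw [h2, Subgroup.card_top, hcard] at hq
      have h3 := Nat.pow_right_injective hp.two_le hq
      omega
    have hpow : ¬ IsPow p c := by
      intro h
      have h1 : ∀ σ : Gal(Ω/K), kk p ζ c σ = 0 := (kk_eq_zero_iff hp hζ _).2 h
      exact hnl fun P' _ _ σ _ => h1 σ
    obtain ⟨L, _, _, _, _, _, ⟨H⟩⟩ := bca_exists Ω hp hζ hpow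
    have : IsAlgClosure L Ω := bca_clo K L Ω
    obtain ⟨w, hPw, hw⟩ := under_pl hP hPv L
    have hζ' : IsPrimitiveRoot (algebraMap K L ζ) p :=
      hζ.map_of_injective (algebraMap K L).injective
    have hmap : (Dc L P).map (ρ.comp (rsK K L Ω)) = q.ker.map D.subtype := by
      ext y
      constructor
      · rintro ⟨σ, hσ, rfl⟩
        have h1 : rsK K L Ω σ ∈ Dc K P := dc_iff.2 hσ
        exact ⟨⟨ρ (rsK K L Ω σ), hDm _ h1⟩,
          (hkk _ h1).1 ((bca_range hp hζ H _).2 ⟨σ, rfl⟩), rfl⟩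
      · rintro ⟨⟨y, hy⟩, hy2, rfl⟩
        have hy' := hy
        rw [hD] at hy'
        obtain ⟨σ, hσ, rfl⟩ := hy'
        obtain ⟨σ', h1, h2⟩ := dc_lift hp hζ H hσ ((hkk σ hσ).2 hy2)
        refine ⟨σ', h1, ?_⟩
        change ρ (rsK K L Ω σ') = ρ σ
        rw [h2]
    have hcard2 : Nat.card ((Dc L P).map (ρ.comp (rsK K L Ω))) = p ^ n := by
      rw [hmap, ← hq]
      exact Nat.card_congr (q.ker.equivMapOfInjective D.subtype D.subtype_injective).toEquiv.symm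
    obtain ⟨x, y, hxy⟩ := ih L (mone_map hp2 L) (algebraMap K L ζ) hζ' Ω (ρ.comp (rsK K L Ω)) (bca_ft hρ) w P hP hPw
      hcard2
    have h1 := stp hp hp2 hζ H hnl hP hPv (c2_pb he hρ) x y hxy
    obtain ⟨d, hd⟩ := lbq hp hζ hP hPv (c2_pb he hρ) c h1
    refine ⟨c, d⁻¹, kl_congr hd fun σ _ τ _ => ?_⟩
    have h2 := kk_zpow_arg hp hζ d (-1) τ
    rw [zpow_neg_one] at h2
    simp only [cu]
    rw [h2]
    push_cast
    ring

end H82.SF
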